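import Pool.Agent.H547R2.Lang

/-!
# The selector language
-/

namespace Pool.Agent.H547R2

open Pool.Agent.NPC Pool.Agent.H611R2

/-- The number of binary digits of an address. -/
def nd (n : ℕ) : ℕ := Nat.log 2 n + 1

/-- The bits of `z` from the place `o` are compatible with the dual rail code of the number `a`,
with `k` digits. -/
def Rd (z : List Bool) (k o a : ℕ) : Prop :=
  ∀ t < k, z.getD (o + 2 * t + if a.testBit t then 1 else 0) false = true

/-- The place of the address number `u`. -/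
def ad (n u : ℕ) : ℕ := u * (2 * nd n)

/-- The block number `j` selected by the bit string `z`. -/
noncomputable def sblk (n : ℕ) (z : List Bool) (j : ℕ) :
    Finset (Fin (AA n) × Fin (2 * AA n)) := by
  classical
  exact Finset.univ.filter fun v => ∃ a < n,
    (Rd z (nd n) (ad n (1 + (j * (2 * AA n ^ 2) + v.1 * (2 * AA n) + v.2))) a ∧
      z.getD a false = true)

/-- The language: some of the `r` selected blocks contains the graph of a polynomial. -/
def SLang : Set (List Bool) :=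
  {z | ∃ r ≤ z.length, Rd z (nd z.length) 0 r ∧
    ∃ j < r, polyFun (AA z.length) (dd z.length) (sblk z.length z j)}

/-- Boolean version of `Rd`. -/
def rdB (z : List Bool) (k o a : ℕ) : Bool :=
  (List.range k).all fun t => z.getD (o + 2 * t + bif a.bits.getD t false then 1 else 0) false

theorem testBit_eq_getD (a t : ℕ) : a.testBit t = a.bits.getD t false := by
  rw [Nat.testBit_eq_inth]
  rfl

theorem rdB_iff (z : List Bool) (k o a : ℕ) : rdB z k o a = true ↔ Rd z k o a := by
  unfold rdB Rd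
  simp only [List.all_eq_true, List.mem_range]
  refine forall_congr' fun t => forall_congr' fun _ => ?_
  rw [testBit_eq_getD]
  cases a.bits.getD t false <;> simp

/-- The selected bit number `u`. -/
def sbit (n : ℕ) (z : List Bool) (u : ℕ) : Bool :=
  (List.range n).any fun a => rdB z (nd n) (ad n (1 + u)) a && z.getD a false

theorem mem_sblk (n : ℕ) (z : List Bool) (j : ℕ) (v : Fin (AA n) × Fin (2 * AA n)) :
    v ∈ sblk n z j ↔ sbit n z (j * (2 * AA n ^ 2) + v.1 * (2 * AA n) + v.2) = true := by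
  unfold sblk sbit
  simp only [Finset.mem_filter, Finset.mem_univ, true_and, List.any_eq_true, List.mem_range,
    Bool.and_eq_true, rdB_iff]

/-- The verifier. -/
def schk (A d : ℕ) (z w : List Bool) : Bool :=
  (List.range (z.length + 1)).any fun r => rdB z (nd z.length) 0 r &&
    (List.range (z.length + 1)).any fun j => decide (j < r) &&
      (List.range (2 * A + 1)).any fun q =>
    decide (A ≤ q) && ((cofs A d w).all (fun a => decide (a < q)) &&
      (List.range A).all fun i =>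
        sbit z.length z (j * (2 * A ^ 2) + i * (2 * A) + ev (max q 1) (cofs A d w) i))

section

variable {α : Type} [TEnc α]

theorem poly_rdB {z : α → List Bool} {k o a : α → ℕ} (hz : NPC.Poly z) (hk : UPoly k)
    (ho : NPC.Poly o) (ha : NPC.Poly a) :
    NPC.Poly (fun x => rdB (z x) (k x) (o x) (a x)) := by
  have h1 : NPC.Poly (fun r : α × ℕ => (bif (a r.1).bits.getD r.2 false then 1 else 0 : ℕ)) :=
    Poly.cond (Poly.getD (d := fun _ => false) (Poly.natBits (ha.comp (Poly.fst Poly.id)))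
      (Poly.snd Poly.id) (NPC.Poly.const false)) (NPC.Poly.const 1) (NPC.Poly.const 0)
  have h2 : NPC.Poly (fun r : α × ℕ => (z r.1).getD
      (o r.1 + 2 * r.2 + bif (a r.1).bits.getD r.2 false then 1 else 0) false) :=
    Poly.getD (d := fun _ => false) (hz.comp (Poly.fst Poly.id))
      (Poly.add (Poly.add (ho.comp (Poly.fst Poly.id))
        (Poly.mul (NPC.Poly.const 2) (Poly.snd Poly.id))) h1) (NPC.Poly.const false)
  exact Poly.all (l := fun x => List.range (k x)) (p := fun x t => (z x).getD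
      (o x + 2 * t + bif (a x).bits.getD t false then 1 else 0) false) hk.range h2

theorem upoly_nd {n : α → ℕ} (hn : NPC.Poly n) : UPoly (fun x => nd (n x)) :=
  UPoly.add (upoly_log2 hn) (UPoly.const 1)

theorem poly_sbit {z : α → List Bool} {u : α → ℕ} (hz : NPC.Poly z) (hu : NPC.Poly u) :
    NPC.Poly (fun x => sbit (z x).length (z x) (u x)) := by
  have N : UPoly (fun x => (z x).length) := UPoly.length hz
  have hn := upoly_nd N.toPoly
  have h0 : NPC.Poly (fun x => ad (z x).length (1 + u x)) :=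
    Poly.mul (Poly.add (NPC.Poly.const 1) hu) (Poly.mul (NPC.Poly.const 2) hn.toPoly)
  have F : NPC.Poly (fun r : α × ℕ => r.1) := Poly.fst Poly.id
  have h1 : NPC.Poly (fun r : α × ℕ =>
      rdB (z r.1) (nd (z r.1).length) (ad (z r.1).length (1 + u r.1)) r.2 &&
        (z r.1).getD r.2 false) :=
    Poly.and (poly_rdB (hz.comp F) (hn.comp F) (h0.comp F) (Poly.snd Poly.id))
      (Poly.getD (d := fun _ => false) (hz.comp F) (Poly.snd Poly.id) (NPC.Poly.const false))
  exact Poly.any (l := fun x => List.range (z x).length)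
    (p := fun x a => rdB (z x) (nd (z x).length) (ad (z x).length (1 + u x)) a &&
      (z x).getD a false) N.range h1

theorem poly_schk {A d : α → ℕ} {z w : α → List Bool} (hA : UPoly A)
    (hd : UPoly d) (hz : NPC.Poly z) (hw : NPC.Poly w) :
    NPC.Poly (fun a => schk (A a) (d a) (z a) (w a)) := by
  have hA' := hA.toPoly
  have h2 : UPoly (fun a => 2 * A a + 1) :=
    UPoly.add (UPoly.mul (UPoly.const 2) hA) (UPoly.const 1)
  have hc := poly_cofs hA hd hw
  have N : UPoly (fun x => (z x).length) := UPoly.length hz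
  have N1 : UPoly (fun x => (z x).length + 1) := UPoly.add N (UPoly.const 1)
  have hn := upoly_nd N.toPoly
  -- contexts: (((a, r), j), q), i
  have A1 : NPC.Poly (fun r : (((α × ℕ) × ℕ) × ℕ) × ℕ => r.1.1.1.1) :=
    Poly.fst (Poly.fst (Poly.fst (Poly.fst Poly.id)))
  have A2 : NPC.Poly (fun r : (((α × ℕ) × ℕ) × ℕ) × ℕ => r.1.1.2) :=
    Poly.snd (Poly.fst (Poly.fst Poly.id))
  have A3 : NPC.Poly (fun r : (((α × ℕ) × ℕ) × ℕ) × ℕ => r.1.2) := Poly.snd (Poly.fst Poly.id)
  have A4 : NPC.Poly (fun r : (((α × ℕ) × ℕ) × ℕ) × ℕ => r.2) := Poly.snd Poly.id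
  have VA : NPC.Poly (fun r : (((α × ℕ) × ℕ) × ℕ) × ℕ => A r.1.1.1.1) := hA'.comp A1
  have E : NPC.Poly (fun r : (((α × ℕ) × ℕ) × ℕ) × ℕ =>
      ev (max r.1.2 1) (cofs (A r.1.1.1.1) (d r.1.1.1.1) (w r.1.1.1.1)) r.2) :=
    poly_ev (Poly.max A3 (NPC.Poly.const 1)) A4 (hc.comp A1) fun _ => by
      exact lt_of_lt_of_le Nat.one_pos (le_max_right _ _)
  have P : NPC.Poly (fun r : (((α × ℕ) × ℕ) × ℕ) × ℕ =>
      r.1.1.2 * (2 * A r.1.1.1.1 ^ 2) + r.2 * (2 * A r.1.1.1.1) +
        ev (max r.1.2 1) (cofs (A r.1.1.1.1) (d r.1.1.1.1) (w r.1.1.1.1)) r.2) := by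
    refine Poly.add (Poly.add (Poly.mul A2 ?_) (Poly.mul A4
      (Poly.mul (NPC.Poly.const 2) VA))) E
    exact (Poly.mul (NPC.Poly.const 2) (Poly.mul VA VA)).congr fun _ => by ring
  have h3 : NPC.Poly (fun r : (((α × ℕ) × ℕ) × ℕ) × ℕ => sbit (z r.1.1.1.1).length (z r.1.1.1.1)
      (r.1.1.2 * (2 * A r.1.1.1.1 ^ 2) + r.2 * (2 * A r.1.1.1.1) +
        ev (max r.1.2 1) (cofs (A r.1.1.1.1) (d r.1.1.1.1) (w r.1.1.1.1)) r.2)) :=
    poly_sbit (hz.comp A1) P
  have B1 : NPC.Poly (fun r : ((α × ℕ) × ℕ) × ℕ => r.1.1.1) :=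
    Poly.fst (Poly.fst (Poly.fst Poly.id))
  have B3 : NPC.Poly (fun r : ((α × ℕ) × ℕ) × ℕ => r.2) := Poly.snd Poly.id
  have h4 : NPC.Poly (fun r : ((α × ℕ) × ℕ) × ℕ => (List.range (A r.1.1.1)).all fun i =>
      sbit (z r.1.1.1).length (z r.1.1.1) (r.1.2 * (2 * A r.1.1.1 ^ 2) + i * (2 * A r.1.1.1) +
        ev (max r.2 1) (cofs (A r.1.1.1) (d r.1.1.1) (w r.1.1.1)) i)) :=
    Poly.all (l := fun r : ((α × ℕ) × ℕ) × ℕ => List.range (A r.1.1.1))
      (p := fun r i => sbit (z r.1.1.1).length (z r.1.1.1) (r.1.2 * (2 * A r.1.1.1 ^ 2) + i * (2 * A r.1.1.1) +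
        ev (max r.2 1) (cofs (A r.1.1.1) (d r.1.1.1) (w r.1.1.1)) i))
      (hA.range.comp B1) h3
  have h5 : NPC.Poly (fun r : ((α × ℕ) × ℕ) × ℕ =>
      (cofs (A r.1.1.1) (d r.1.1.1) (w r.1.1.1)).all (fun a => decide (a < r.2))) :=
    Poly.all (l := fun r : ((α × ℕ) × ℕ) × ℕ => cofs (A r.1.1.1) (d r.1.1.1) (w r.1.1.1))
      (p := fun r a => decide (a < r.2)) (hc.comp B1)
      (Poly.decide_lt (Poly.snd Poly.id) (Poly.snd (Poly.fst Poly.id)))
  have h6 : NPC.Poly (fun r : ((α × ℕ) × ℕ) × ℕ =>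
      decide (A r.1.1.1 ≤ r.2) && ((cofs (A r.1.1.1) (d r.1.1.1) (w r.1.1.1)).all
        (fun a => decide (a < r.2)) && (List.range (A r.1.1.1)).all fun i =>
      sbit (z r.1.1.1).length (z r.1.1.1) (r.1.2 * (2 * A r.1.1.1 ^ 2) + i * (2 * A r.1.1.1) +
        ev (max r.2 1) (cofs (A r.1.1.1) (d r.1.1.1) (w r.1.1.1)) i))) :=
    Poly.and (Poly.decide_le (hA'.comp B1) B3) (Poly.and h5 h4)
  have C1 : NPC.Poly (fun r : (α × ℕ) × ℕ => r.1.1) := Poly.fst (Poly.fst Poly.id)
  have h7 : NPC.Poly (fun r : (α × ℕ) × ℕ => (List.range (2 * A r.1.1 + 1)).any fun q =>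
      decide (A r.1.1 ≤ q) && ((cofs (A r.1.1) (d r.1.1) (w r.1.1)).all
        (fun a => decide (a < q)) && (List.range (A r.1.1)).all fun i =>
      sbit (z r.1.1).length (z r.1.1) (r.2 * (2 * A r.1.1 ^ 2) + i * (2 * A r.1.1) +
        ev (max q 1) (cofs (A r.1.1) (d r.1.1) (w r.1.1)) i))) :=
    Poly.any (l := fun r : (α × ℕ) × ℕ => List.range (2 * A r.1.1 + 1))
      (p := fun r q => decide (A r.1.1 ≤ q) && ((cofs (A r.1.1) (d r.1.1) (w r.1.1)).all
        (fun a => decide (a < q)) && (List.range (A r.1.1)).all fun i =>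
      sbit (z r.1.1).length (z r.1.1) (r.2 * (2 * A r.1.1 ^ 2) + i * (2 * A r.1.1) +
        ev (max q 1) (cofs (A r.1.1) (d r.1.1) (w r.1.1)) i)))
      (h2.range.comp C1) h6
  have h8 : NPC.Poly (fun r : (α × ℕ) × ℕ => decide (r.2 < r.1.2) &&
      (List.range (2 * A r.1.1 + 1)).any fun q =>
      decide (A r.1.1 ≤ q) && ((cofs (A r.1.1) (d r.1.1) (w r.1.1)).all
        (fun a => decide (a < q)) && (List.range (A r.1.1)).all fun i =>
      sbit (z r.1.1).length (z r.1.1) (r.2 * (2 * A r.1.1 ^ 2) + i * (2 * A r.1.1) +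
        ev (max q 1) (cofs (A r.1.1) (d r.1.1) (w r.1.1)) i))) :=
    Poly.and (Poly.decide_lt (Poly.snd Poly.id) (Poly.snd (Poly.fst Poly.id))) h7
  have D1 : NPC.Poly (fun r : α × ℕ => r.1) := Poly.fst Poly.id
  have h9 : NPC.Poly (fun r : α × ℕ => (List.range ((z r.1).length + 1)).any fun j =>
      decide (j < r.2) && (List.range (2 * A r.1 + 1)).any fun q =>
      decide (A r.1 ≤ q) && ((cofs (A r.1) (d r.1) (w r.1)).all
        (fun a => decide (a < q)) && (List.range (A r.1)).all fun i =>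
      sbit (z r.1).length (z r.1) (j * (2 * A r.1 ^ 2) + i * (2 * A r.1) +
        ev (max q 1) (cofs (A r.1) (d r.1) (w r.1)) i))) :=
    Poly.any (l := fun r : α × ℕ => List.range ((z r.1).length + 1))
      (p := fun r j => decide (j < r.2) && (List.range (2 * A r.1 + 1)).any fun q =>
      decide (A r.1 ≤ q) && ((cofs (A r.1) (d r.1) (w r.1)).all
        (fun a => decide (a < q)) && (List.range (A r.1)).all fun i =>
      sbit (z r.1).length (z r.1) (j * (2 * A r.1 ^ 2) + i * (2 * A r.1) +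
        ev (max q 1) (cofs (A r.1) (d r.1) (w r.1)) i)))
      (N1.range.comp D1) h8
  have h10 : NPC.Poly (fun r : α × ℕ => rdB (z r.1) (nd (z r.1).length) 0 r.2 &&
      (List.range ((z r.1).length + 1)).any fun j =>
      decide (j < r.2) && (List.range (2 * A r.1 + 1)).any fun q =>
      decide (A r.1 ≤ q) && ((cofs (A r.1) (d r.1) (w r.1)).all
        (fun a => decide (a < q)) && (List.range (A r.1)).all fun i =>
      sbit (z r.1).length (z r.1) (j * (2 * A r.1 ^ 2) + i * (2 * A r.1) +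
        ev (max q 1) (cofs (A r.1) (d r.1) (w r.1)) i))) :=
    Poly.and (poly_rdB (hz.comp D1) (hn.comp D1) (NPC.Poly.const 0) (Poly.snd Poly.id)) h9
  exact Poly.any (l := fun a => List.range ((z a).length + 1))
    (p := fun a r => rdB (z a) (nd (z a).length) 0 r &&
      (List.range ((z a).length + 1)).any fun j =>
      decide (j < r) && (List.range (2 * A a + 1)).any fun q =>
      decide (A a ≤ q) && ((cofs (A a) (d a) (w a)).all
        (fun b => decide (b < q)) && (List.range (A a)).all fun i =>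
      sbit (z a).length (z a) (j * (2 * A a ^ 2) + i * (2 * A a) +
        ev (max q 1) (cofs (A a) (d a) (w a)) i))) N1.range h10

end

theorem slang_of_schk {z w : List Bool} (h : schk (AA z.length) (dd z.length) z w = true) :
    z ∈ SLang := by
  unfold schk at h
  simp only [List.any_eq_true, List.mem_range, Bool.and_eq_true, decide_eq_true_eq,
    List.all_eq_true] at h
  obtain ⟨r, hr, hrd, j, _, hj, q, hq, h1, h2, h3⟩ := h
  refine ⟨r, by omega, (rdB_iff _ _ _ _).1 hrd, j, hj, q, h1, by omega,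
    cofs (AA z.length) (dd z.length) w, cofs_length _ _ _, h2, fun i => ?_⟩
  have hi := i.2
  have hq1 : max q 1 = q := max_eq_left (by omega)
  have hlt := ev_lt (q := q) (by omega) (cofs (AA z.length) (dd z.length) w) i
  refine ⟨⟨ev q (cofs (AA z.length) (dd z.length) w) i, by omega⟩, rfl, ?_⟩
  have := h3 i hi
  rw [hq1] at this
  rw [mem_sblk]
  exact this

theorem AA_pos_of_polyFun {n : ℕ} {x : Finset (Fin (AA n) × Fin (2 * AA n))}
    (h : polyFun (AA n) (dd n) x) : 0 < AA n := by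
  obtain ⟨q, h1, h2, c, h3, h4, _⟩ := h
  by_contra h0
  have hd : 0 < dd n := by unfold dd; positivity
  cases c with
  | nil => simp at h3; omega
  | cons a l => have := h4 a (by simp); omega

theorem exists_schk {z : List Bool} (h : z ∈ SLang) :
    ∃ w : List Bool, w.length = dd z.length * (2 * AA z.length) ∧
      schk (AA z.length) (dd z.length) z w = true := by
  obtain ⟨r, hr, hrd, j, hj, hp⟩ := h
  have hA := AA_pos_of_polyFun hp
  obtain ⟨q, h1, h2, c, h3, h4, h5⟩ := hp
  have hc := cofs_ucode (AA z.length) c (fun a ha => by have := h4 a ha; omega) hA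
  refine ⟨ucode (AA z.length) c, by simp [ucode, h3], ?_⟩
  rw [h3] at hc
  unfold schk
  simp only [List.any_eq_true, List.mem_range, Bool.and_eq_true, decide_eq_true_eq,
    List.all_eq_true, hc]
  refine ⟨r, by omega, (rdB_iff _ _ _ _).2 hrd, j, by omega, hj, q, by omega, h1, h4,
    fun i hi => ?_⟩
  obtain ⟨y, hy, hyx⟩ := h5 ⟨i, hi⟩
  rw [max_eq_left (by omega : 1 ≤ q), ← hy]
  rw [mem_sblk] at hyx
  exact hyx

theorem dd_le_poly (n : ℕ) : dd n ≤ 2 * n ^ 2 + 2 := by
  have h1 : dd n ≤ 2 * (Nat.log 2 n * lam n) + 2 := two_pow_log_succ_le _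
  have h2 : Nat.log 2 n ≤ n := Nat.log_le_self _ _
  have h3 : lam n ≤ n := (Nat.log_le_self _ _).trans h2
  have h4 : Nat.log 2 n * lam n ≤ n * n := Nat.mul_le_mul h2 h3
  nlinarith

theorem AA_le_poly (n : ℕ) : AA n ≤ 2 * (2 * n ^ 2 + 2) ^ 2 * n ^ 2 := by
  have h1 := dd_le_poly n
  have h2 : Nat.log 2 n ≤ n := Nat.log_le_self _ _
  have h3 : lam n ≤ n := (Nat.log_le_self _ _).trans h2
  unfold AA
  gcongr

/-- **The selector language is in `NP`.** -/
theorem inNP_slang : InNP SLang := by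
  refine inNP_of_poly (fun p => schk (AA p.1.length) (dd p.1.length) p.1 p.2) ?_
    ((2 * Polynomial.X ^ 2 + 2) * (2 * (2 * (2 * Polynomial.X ^ 2 + 2) ^ 2 * Polynomial.X ^ 2)))
    fun x => ?_
  · have X : NPC.Poly (fun p : List Bool × List Bool => p.1) := Poly.fst Poly.id
    have W : NPC.Poly (fun p : List Bool × List Bool => p.2) := Poly.snd Poly.id
    have N : UPoly (fun p : List Bool × List Bool => p.1.length) := UPoly.length X
    exact poly_schk (upoly_AA N.toPoly) (upoly_dd N.toPoly) X W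
  · constructor
    · intro h
      obtain ⟨w, hw1, hw2⟩ := exists_schk h
      refine ⟨w, ?_, hw2⟩
      rw [hw1]
      simp only [Polynomial.eval_mul, Polynomial.eval_add, Polynomial.eval_pow, Polynomial.eval_X,
        Polynomial.eval_ofNat]
      exact Nat.mul_le_mul (dd_le_poly _) (Nat.mul_le_mul_left _ (AA_le_poly _))
    · rintro ⟨w, _, hw⟩
      exact slang_of_schk hw

/-- The selector language is monotone. -/
theorem slang_mono {z z' : List Bool} (hl : z.length = z'.length)
    (h : ∀ p, z.getD p false = true → z'.getD p false = true) (hz : z ∈ SLang) : z' ∈ SLang := by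
  obtain ⟨r, hr, hrd, j, hj, hp⟩ := hz
  have hR : ∀ k o a, Rd z k o a → Rd z' k o a := fun k o a hh t ht => h _ (hh t ht)
  have hb : ∀ n u, sbit n z u = true → sbit n z' u = true := by
    intro n u hu
    unfold sbit at hu ⊢
    simp only [List.any_eq_true, List.mem_range, Bool.and_eq_true, rdB_iff] at hu ⊢
    obtain ⟨a, h1, h2, h3⟩ := hu
    exact ⟨a, h1, hR _ _ _ h2, h _ h3⟩
  change ∃ r ≤ z'.length, _
  rw [← hl]
  refine ⟨r, hr, hR _ _ _ hrd, j, hj, polyFun_mono ?_ hp⟩
  intro v hv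
  rw [mem_sblk] at hv ⊢
  exact hb _ _ hv

end Pool.Agent.H547R2
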