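import Pool.Agent.H547R2.Loc1
import Pool.Agent.H547R2.Sampler
import Pool.Agent.H547R2.Asym

/-!
# Instances of the selector language
-/

namespace Pool.Agent.H547R2

open Finset

theorem testBit_pow {x k t : ℕ} (hx : x < 2 ^ k) (ht : k ≤ t) : x.testBit t = false :=
  Nat.testBit_eq_false_of_lt (lt_of_lt_of_le hx (Nat.pow_le_pow_right (by norm_num) ht))

theorem getD_ofFn' {n : ℕ} (z : Fin n → Bool) (p : Fin n) : (List.ofFn z).getD p.val false = z p := by
  rw [List.getD_eq_getElem _ _ (by simp), List.getElem_ofFn]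

section

variable {n r : ℕ} (pos : Fin (r * (2 * AA n ^ 2)) → Fin n)

/-- The number coded at the place `u`. -/
def value (u : ℕ) : ℕ :=
  if u = 0 then r else if h : u - 1 < r * (2 * AA n ^ 2) then (pos ⟨u - 1, h⟩ : ℕ) else 0

/-- The base instance, with the header and the addresses. -/
def z0 (p : Fin n) : Bool :=
  decide (p.val < ad n (1 + r * (2 * AA n ^ 2))) &&
    (decide (p.val % 2 = 1) == (value pos (p.val / (2 * nd n))).testBit
      (p.val % (2 * nd n) / 2))

theorem nd_pos : 0 < nd n := Nat.succ_pos _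

theorem lt_two_pow_nd {a : ℕ} (ha : a ≤ n) : a < 2 ^ nd n :=
  lt_of_le_of_lt ha (Nat.lt_pow_succ_log_self (by norm_num) _)

theorem value_lt (hr : r ≤ n) (u : ℕ) : value pos u < 2 ^ nd n := by
  unfold value
  split_ifs with h1 h2
  · exact lt_two_pow_nd hr
  · exact lt_two_pow_nd (pos _).2.le
  · positivity

theorem place_facts {u t b : ℕ} (ht : t < nd n) (hb : b < 2) :
    (ad n u + 2 * t + b) / (2 * nd n) = u ∧ (ad n u + 2 * t + b) % (2 * nd n) / 2 = t ∧
      (ad n u + 2 * t + b) % 2 = b := by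
  unfold ad
  refine ⟨?_, ?_, ?_⟩
  · rw [add_assoc, Nat.add_comm, Nat.add_mul_div_right _ _ (by omega),
      Nat.div_eq_of_lt (by omega), Nat.zero_add]
  · rw [add_assoc, Nat.add_comm (u * _), Nat.add_mul_mod_self_right, Nat.mod_eq_of_lt (by omega)]
    omega
  · have : u * (2 * nd n) = 2 * (u * nd n) := by ring
    omega

theorem Rd_iff (hr : r ≤ n) (hT : ad n (1 + r * (2 * AA n ^ 2)) ≤ n) {z : Fin n → Bool}
    (hz : ∀ p : Fin n, p.val < ad n (1 + r * (2 * AA n ^ 2)) → z p = z0 pos p)
    {u a : ℕ} (hu : u ≤ r * (2 * AA n ^ 2)) (ha : a ≤ n) :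
    Rd (List.ofFn z) (nd n) (ad n u) a ↔ a = value pos u := by
  have hbit : ∀ t < nd n, ∀ b < 2, (List.ofFn z).getD (ad n u + 2 * t + b) false =
      (decide (b = 1) == (value pos u).testBit t) := by
    intro t ht b hb
    obtain ⟨h1, h2, h3⟩ := place_facts (n := n) (u := u) ht hb
    have hlt : ad n u + 2 * t + b < ad n (1 + r * (2 * AA n ^ 2)) := by
      have h4 : (u + 1) * (2 * nd n) ≤ (1 + r * (2 * AA n ^ 2)) * (2 * nd n) :=
        Nat.mul_le_mul_right _ (by omega)
      have h5 : (u + 1) * (2 * nd n) = u * (2 * nd n) + 2 * nd n := by ring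
      unfold ad
      omega
    have h6 := getD_ofFn' z ⟨ad n u + 2 * t + b, by omega⟩
    simp only at h6
    rw [h6, hz _ hlt]
    unfold z0
    simp only [h1, h2, h3, hlt, decide_true, Bool.true_and]
  have key : Rd (List.ofFn z) (nd n) (ad n u) a ↔
      ∀ t < nd n, a.testBit t = (value pos u).testBit t := by
    unfold Rd
    refine forall_congr' fun t => forall_congr' fun ht => ?_
    rw [hbit t ht _ (by split_ifs <;> omega)]
    cases a.testBit t <;> cases (value pos u).testBit t <;> simp
  rw [key]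
  constructor
  · intro h
    apply Nat.eq_of_testBit_eq
    intro t
    by_cases ht : t < nd n
    · exact h t ht
    · rw [testBit_pow (lt_two_pow_nd ha) (by omega), testBit_pow (value_lt pos hr u) (by omega)]
  · rintro rfl t _
    rfl

theorem succ_le_mul {j K : ℕ} (hj : j < r) : (j + 1) * K ≤ r * K := Nat.mul_le_mul_right _ hj

/-- The position in the input of an entry of the selected block number `j`. -/
def posb (j : ℕ) (hj : j < r) (v : Fin (AA n) × Fin (2 * AA n)) : Fin n :=
  pos (posn j (succ_le_mul hj) v)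

theorem mem_slang_iff (hr : r ≤ n) (hT : ad n (1 + r * (2 * AA n ^ 2)) ≤ n) {z : Fin n → Bool}
    (hz : ∀ p : Fin n, p.val < ad n (1 + r * (2 * AA n ^ 2)) → z p = z0 pos p) :
    List.ofFn z ∈ SLang ↔ ∃ j, ∃ hj : j < r, polyFun (AA n) (dd n)
      (univ.filter fun v => z (posb pos j hj v) = true) := by
  have hblk : ∀ j (hj : j < r), sblk n (List.ofFn z) j =
      univ.filter fun v => z (posb pos j hj v) = true := by
    intro j hj
    ext v
    unfold sblk
    simp only [mem_filter, mem_univ, true_and]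
    have hlt : (posn j (succ_le_mul hj) v : Fin (r * (2 * AA n ^ 2))).val < r * (2 * AA n ^ 2) :=
      (posn j (succ_le_mul hj) v).2
    have hval : value pos (1 + (j * (2 * AA n ^ 2) + v.1 * (2 * AA n) + v.2)) =
        (posb pos j hj v : Fin n).val := by
      unfold value posb
      rw [if_neg (by omega), dif_pos (by
        rw [Nat.add_sub_cancel_left]
        exact hlt)]
      congr 2
      apply Fin.ext
      simp only [posn]
      omega
    have hu : 1 + (j * (2 * AA n ^ 2) + v.1 * (2 * AA n) + v.2) ≤ r * (2 * AA n ^ 2) := by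
      have : j * (2 * AA n ^ 2) + v.1 * (2 * AA n) + v.2 < r * (2 * AA n ^ 2) := hlt
      omega
    constructor
    · rintro ⟨a, ha, h1, h2⟩
      rw [Rd_iff pos hr hT hz hu ha.le, hval] at h1
      subst h1
      rwa [getD_ofFn'] at h2
    · intro h
      refine ⟨(posb pos j hj v : Fin n).val, (posb pos j hj v).2, ?_, ?_⟩
      · rw [Rd_iff pos hr hT hz hu (posb pos j hj v).2.le, hval]
      · rwa [getD_ofFn']
  have hhead : ∀ r' ≤ n, (Rd (List.ofFn z) (nd n) 0 r' ↔ r' = r) := by
    intro r' hr'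
    have h := Rd_iff pos hr hT hz (u := 0) (Nat.zero_le _) hr'
    have h0 : ad n 0 = 0 := by simp [ad]
    rw [h0] at h
    rw [h]
    simp [value]
  change (∃ r ≤ (List.ofFn z).length, _) ↔ _
  rw [List.length_ofFn]
  constructor
  · rintro ⟨r', hr', hrd, j, hj, hp⟩
    rw [hhead r' hr'] at hrd
    subst hrd
    rw [hblk j hj] at hp
    exact ⟨j, hj, hp⟩
  · rintro ⟨j, hj, hp⟩
    refine ⟨r, hr, (hhead r hr).2 rfl, j, hj, ?_⟩
    rw [hblk j hj]
    exact hp

end

end Pool.Agent.H547R2
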