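import Pool.Agent.H547R2.Loc2

/-!
# The chain of negative instances
-/

namespace Pool.Agent.H547R2

open Finset

theorem not_polyFun_empty {A d : ℕ} (hA : 0 < A) : ¬ polyFun A d ∅ := by
  rintro ⟨q, _, _, c, _, _, h⟩
  obtain ⟨y, _, hy⟩ := h ⟨0, hA⟩
  simp at hy

section

variable {n r : ℕ} (pos : Fin (r * (2 * AA n ^ 2)) → Fin n)

/-- The state after `i` steps. -/
structure Inv (i : ℕ) (x : Fin n → Bool) : Prop where
  same : ∀ p : Fin n, (∀ j (hj : j < r) v, j < i → posb pos j hj v ≠ p) → x p = z0 pos p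
  neg : ∀ j (hj : j < r), j < i → ¬ polyFun (AA n) (dd n)
    (univ.filter fun v => x (posb pos j hj v) = true)

variable {pos}

theorem posb_inj (hpos : Function.Injective pos) {j j' : ℕ} {hj : j < r} {hj' : j' < r}
    {v v' : Fin (AA n) × Fin (2 * AA n)} (h : posb pos j hj v = posb pos j' hj' v') :
    j = j' ∧ v = v' := by
  have h1 := hpos h
  have h2 := congrArg Fin.val h1
  have d1 := (posn_div j (succ_le_mul hj) v).1
  have d2 := (posn_div j' (succ_le_mul hj') v').1
  have hjj : j = j' := by rw [← d1, ← d2, h2]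
  subst hjj
  exact ⟨rfl, posn_inj _ _ h1⟩

theorem z0_posb (hT : ∀ p, ad n (1 + r * (2 * AA n ^ 2)) ≤ (pos p).val) (j : ℕ) (hj : j < r)
    (v : Fin (AA n) × Fin (2 * AA n)) : z0 pos (posb pos j hj v) = false := by
  have := hT (posn j (succ_le_mul hj) v)
  unfold z0 posb
  rw [decide_eq_false (by omega)]
  rfl

theorem Inv.agree (hT : ∀ p, ad n (1 + r * (2 * AA n ^ 2)) ≤ (pos p).val) {i : ℕ}
    {x : Fin n → Bool} (h : Inv pos i x) (p : Fin n)
    (hp : p.val < ad n (1 + r * (2 * AA n ^ 2))) : x p = z0 pos p := by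
  refine h.same p fun j hj v _ he => ?_
  have := hT (posn j (succ_le_mul hj) v)
  rw [← he] at hp
  unfold posb at hp
  omega

theorem Inv.zero (hT : ∀ p, ad n (1 + r * (2 * AA n ^ 2)) ≤ (pos p).val)
    (hpos : Function.Injective pos) {i : ℕ} {x : Fin n → Bool} (h : Inv pos i x) {j : ℕ}
    (hj : j < r) (hij : i ≤ j) (v : Fin (AA n) × Fin (2 * AA n)) :
    x (posb pos j hj v) = false := by
  rw [h.same _ fun j' hj' v' hlt he => ?_]
  · exact z0_posb hT j hj v
  · have := (posb_inj hpos he).1
    omega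

theorem Inv.notMem (hr : r ≤ n) (hTn : ad n (1 + r * (2 * AA n ^ 2)) ≤ n)
    (hT : ∀ p, ad n (1 + r * (2 * AA n ^ 2)) ≤ (pos p).val)
    (hpos : Function.Injective pos) (hA : 0 < AA n) {i : ℕ} {x : Fin n → Bool}
    (h : Inv pos i x) : List.ofFn x ∉ SLang := by
  rw [mem_slang_iff pos hr hTn (fun p hp => h.agree hT p hp)]
  rintro ⟨j, hj, hp⟩
  by_cases hij : j < i
  · exact h.neg j hj hij hp
  · have : (univ.filter fun v => x (posb pos j hj v) = true) = ∅ := by
      ext v
      simp [h.zero hT hpos hj (by omega) v]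
    rw [this] at hp
    exact not_polyFun_empty hA hp

theorem inv_zero : Inv pos 0 (z0 pos) :=
  ⟨fun _ _ => rfl, fun j _ hj => absurd hj (Nat.not_lt_zero _)⟩

theorem comb_block (hT : ∀ p, ad n (1 + r * (2 * AA n ^ 2)) ≤ (pos p).val)
    (hpos : Function.Injective pos) {i : ℕ} {x : Fin n → Bool} (h : Inv pos i x)
    (hi : i < r) (W : Finset (Fin (AA n) × Fin (2 * AA n))) :
    (univ.filter fun v => comb x (posb pos i hi) W (posb pos i hi v) = true) = W := by
  ext v
  rw [mem_filter]
  unfold comb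
  rw [h.zero hT hpos hi le_rfl v, Bool.false_or, decide_eq_true_eq]
  simp only [mem_univ, true_and]
  constructor
  · rintro ⟨v', hv', he⟩
    rwa [(posb_inj hpos he).2] at hv'
  · intro hv
    exact ⟨v, hv, rfl⟩

theorem comb_other (hpos : Function.Injective pos) {i : ℕ} {x : Fin n → Bool}
    (hi : i < r) (W : Finset (Fin (AA n) × Fin (2 * AA n))) {j : ℕ} (hj : j < r) (hij : j ≠ i)
    (v : Fin (AA n) × Fin (2 * AA n)) :
    comb x (posb pos i hi) W (posb pos j hj v) = x (posb pos j hj v) := by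
  unfold comb
  rw [decide_eq_false, Bool.or_false]
  rintro ⟨v', _, he⟩
  exact hij (posb_inj hpos he).1.symm

theorem inv_comb (hT : ∀ p, ad n (1 + r * (2 * AA n ^ 2)) ≤ (pos p).val)
    (hpos : Function.Injective pos) {i : ℕ} {x : Fin n → Bool} (h : Inv pos i x)
    (hi : i < r) {W : Finset (Fin (AA n) × Fin (2 * AA n))} (hW : ¬ polyFun (AA n) (dd n) W) :
    Inv pos (i + 1) (comb x (posb pos i hi) W) := by
  refine ⟨fun p hp => ?_, fun j hj hji => ?_⟩
  · rw [← h.same p fun j hj v hji => hp j hj v (by omega)]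
    unfold comb
    rw [decide_eq_false, Bool.or_false]
    rintro ⟨v', _, he⟩
    exact hp i hi v' (by omega) he
  · by_cases hij : j = i
    · subst hij
      rw [comb_block hT hpos h hi W]
      exact hW
    · have : (univ.filter fun v => comb x (posb pos i hi) W (posb pos j hj v) = true) =
          univ.filter fun v => x (posb pos j hj v) = true := by
        ext v
        rw [mem_filter, mem_filter, comb_other hpos hi W hj hij v]
      rw [this]
      exact h.neg j hj (by omega)

/-- **One step of the chain.** -/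
theorem flip_step (hr : r ≤ n) (hTn : ad n (1 + r * (2 * AA n ^ 2)) ≤ n)
    (hT : ∀ p, ad n (1 + r * (2 * AA n ^ 2)) ≤ (pos p).val)
    (hpos : Function.Injective pos) (C : Circuit n)
    (hC : ∀ x, C.eval x = true ↔ List.ofFn x ∈ SLang)
    (hlow : ∀ (t : ℕ) (S : Set (Finset (Fin (AA n) × Fin (2 * AA n)) → Prop)),
      Comp (Fin (AA n) × Fin (2 * AA n)) t S → polyFun (AA n) (dd n) ∈ S → C.size + 1 < t)
    (hA : 0 < AA n) {i : ℕ} (hi : i < r) {x : Fin n → Bool} (h : Inv pos i x) :
    ∃ x', Inv pos (i + 1) x' ∧ x ≤ x' ∧ (∀ p, x p ≠ x' p → ∃ v, posb pos i hi v = p) ∧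
      C.Changes x x' := by
  have hinj : Function.Injective (posb pos i hi) := fun v v' hv => (posb_inj hpos hv).2
  obtain ⟨S, hS, hD⟩ := comp_frozen C x (posb pos i hi) hinj
  have hpos' : ∀ z, polyFun (AA n) (dd n) z → frozen C x (posb pos i hi) z := by
    intro z hz
    apply frozen_of_eval
    rw [hC, mem_slang_iff pos hr hTn]
    · exact ⟨i, hi, by rwa [comb_block hT hpos h hi z]⟩
    · intro p hp
      rw [← h.agree hT p hp]
      unfold comb
      rw [decide_eq_false, Bool.or_false]
      rintro ⟨v', _, he⟩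
      have := hT (posn i (succ_le_mul hi) v')
      rw [← he] at hp
      unfold posb at hp
      omega
  have hneg : ∃ W, ¬ polyFun (AA n) (dd n) W ∧ frozen C x (posb pos i hi) W := by
    by_contra hcon
    push Not at hcon
    have : frozen C x (posb pos i hi) = polyFun (AA n) (dd n) := by
      funext z
      exact propext ⟨fun hz => by
        by_contra hn
        exact hcon z hn hz, hpos' z⟩
    rw [this] at hD
    exact absurd (hlow _ S hS hD) (lt_irrefl _)
  obtain ⟨W, hW, hfW⟩ := hneg
  have hinv := inv_comb hT hpos h hi hW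
  refine ⟨_, hinv, ?_, ?_, ?_⟩
  · intro p
    rw [Bool.le_iff_imp]
    intro hp
    simp [comb, hp]
  · intro p hp
    by_contra hno
    push Not at hno
    apply hp
    unfold comb
    rw [decide_eq_false, Bool.or_false]
    rintro ⟨v', _, he⟩
    exact hno v' he
  · rcases of_frozen C x (posb pos i hi) W hfW with he | he
    · rw [hC] at he
      exact absurd he (hinv.notMem hr hTn hT hpos hA)
    · exact he

/-- **The chain.** -/
theorem exists_chain (hr : r ≤ n) (hTn : ad n (1 + r * (2 * AA n ^ 2)) ≤ n)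
    (hT : ∀ p, ad n (1 + r * (2 * AA n ^ 2)) ≤ (pos p).val)
    (hpos : Function.Injective pos) (C : Circuit n)
    (hC : ∀ x, C.eval x = true ↔ List.ofFn x ∈ SLang)
    (hlow : ∀ (t : ℕ) (S : Set (Finset (Fin (AA n) × Fin (2 * AA n)) → Prop)),
      Comp (Fin (AA n) × Fin (2 * AA n)) t S → polyFun (AA n) (dd n) ∈ S → C.size + 1 < t)
    (hA : 0 < AA n) :
    ∃ x : ℕ → Fin n → Bool, (∀ i ≤ r, List.ofFn (x i) ∉ SLang) ∧
      ∀ i < r, x i ≤ x (i + 1) ∧ (∀ p, x i p ≠ x (i + 1) p → ∃ u, pos u = p) ∧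
        C.Changes (x i) (x (i + 1)) := by
  have key : ∀ k ≤ r, ∃ x : ℕ → Fin n → Bool, (∀ i ≤ k, Inv pos i (x i)) ∧
      ∀ i < k, x i ≤ x (i + 1) ∧ (∀ p, x i p ≠ x (i + 1) p → ∃ u, pos u = p) ∧
        C.Changes (x i) (x (i + 1)) := by
    intro k
    induction k with
    | zero =>
      intro _
      refine ⟨fun _ => z0 pos, fun i hi => ?_, fun i hi => absurd hi (Nat.not_lt_zero _)⟩
      obtain rfl : i = 0 := by omega
      exact inv_zero
    | succ k ih =>
      intro hk
      obtain ⟨x, h1, h2⟩ := ih (by omega)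
      obtain ⟨x', g1, g2, g3, g4⟩ := flip_step hr hTn hT hpos C hC hlow hA (i := k) (by omega)
        (h1 k le_rfl)
      refine ⟨fun i => if i ≤ k then x i else x', fun i hi => ?_, fun i hi => ?_⟩
      · by_cases hik : i ≤ k
        · simp only [hik, if_true]
          exact h1 i hik
        · obtain rfl : i = k + 1 := by omega
          simp only [hik, if_false]
          exact g1
      · by_cases hik : i = k
        · subst hik
          simp only [le_refl, if_true, Nat.not_succ_le_self, if_false]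
          exact ⟨g2, fun p hp => by
            obtain ⟨v, hv⟩ := g3 p hp
            exact ⟨_, hv⟩, g4⟩
        · have e1 : i ≤ k := by omega
          have e2 : i + 1 ≤ k := by omega
          simp only [e1, e2, if_true]
          exact h2 i (by omega)
  obtain ⟨x, h1, h2⟩ := key r le_rfl
  exact ⟨x, fun i hi => (h1 i hi).notMem hr hTn hT hpos hA, h2⟩

end

end Pool.Agent.H547R2
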