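import Pool.Agent.H547R2.Loc3
import Pool.Agent.H547R2.Final

/-!
# Local flips: choice of the parameters
-/

namespace Pool.Agent.H547R2

open Finset

theorem pow_bound' (x : ℕ) (hx : 64 ≤ x) : 65536 * x ^ 8 ≤ 2 ^ x := by
  induction x, hx using Nat.le_induction with
  | base => norm_num
  | succ x hx ih =>
    have h1 : 64 ^ 8 * (x + 1) ^ 8 ≤ 65 ^ 8 * x ^ 8 := by
      rw [← mul_pow, ← mul_pow]
      exact Nat.pow_le_pow_left (by omega) _
    have h2 : (65 : ℕ) ^ 8 ≤ 2 * 64 ^ 8 := by norm_num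
    have h3 : 64 ^ 8 * (x + 1) ^ 8 ≤ 64 ^ 8 * (2 * x ^ 8) := by
      calc 64 ^ 8 * (x + 1) ^ 8 ≤ 65 ^ 8 * x ^ 8 := h1
        _ ≤ 2 * 64 ^ 8 * x ^ 8 := Nat.mul_le_mul_right _ h2
        _ = 64 ^ 8 * (2 * x ^ 8) := by ring
    have h4 : (x + 1) ^ 8 ≤ 2 * x ^ 8 := Nat.le_of_mul_le_mul_left h3 (by norm_num)
    rw [pow_succ 2 x]
    omega

theorem blk_le' {n : ℕ} (h : 64 ≤ lam n) : 512 * (2 * AA n ^ 2) ≤ Nat.log 2 n ^ 5 := by
  have h1 := AA_le h
  have h2 := pow_bound' _ h
  have h3 := ell_ge h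
  calc 512 * (2 * AA n ^ 2) ≤ 512 * (2 * (8 * (Nat.log 2 n ^ 2 * lam n ^ 4)) ^ 2) := by gcongr
    _ = Nat.log 2 n ^ 4 * (65536 * lam n ^ 8) := by ring
    _ ≤ Nat.log 2 n ^ 4 * Nat.log 2 n := Nat.mul_le_mul_left _ (h2.trans h3)
    _ = Nat.log 2 n ^ 5 := by ring

theorem unit_le {n : ℕ} (h : 64 ≤ lam n) :
    2 * AA n ^ 2 * (2 * nd n + 1) + 2 * nd n ≤ Nat.log 2 n ^ 6 := by
  have h1 := blk_le' h
  have h2 := ell_ge' h
  unfold nd
  set L := Nat.log 2 n
  have h3 : 2 * AA n ^ 2 * (2 * (L + 1) + 1) ≤ 2 * AA n ^ 2 * (3 * L) :=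
    Nat.mul_le_mul_left _ (by omega)
  have h4 : 512 * (2 * AA n ^ 2 * (3 * L)) ≤ 3 * (L ^ 6) := by
    calc 512 * (2 * AA n ^ 2 * (3 * L)) = 512 * (2 * AA n ^ 2) * (3 * L) := by ring
      _ ≤ L ^ 5 * (3 * L) := Nat.mul_le_mul_right _ h1
      _ = 3 * (L ^ 6) := by ring
  have h5 : 64 * L ≤ L ^ 6 := by
    calc 64 * L ≤ L * L := Nat.mul_le_mul_right _ h2
      _ = L ^ 2 := by ring
      _ ≤ L ^ 6 := Nat.pow_le_pow_right (by omega) (by norm_num)
  omega

theorem hnum_bound {n : ℕ} (h : 64 ≤ lam n) :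
    2 * ((AA n + 1) * (2 * AA n) ^ dd n) * (2 * dd n - 1) ^ AA n ≤ (2 * dd n) ^ AA n := by
  have h1 := count_bound h 1 (by omega)
  have h2 := one_sub_pow_le h
  have hd := dd_ge h
  have hn : 2 ≤ n := by
    have := n_ge h
    have h3 := ell_ge' h
    have h4 : 2 ^ 1 ≤ 2 ^ Nat.log 2 n := Nat.pow_le_pow_right (by norm_num) (by omega)
    omega
  have hm : 1 ≤ mm n := by
    have hb := blk_le_n h
    have hA := AA_ge h
    have hpos : 0 < 2 * AA n ^ 2 := by
      have : 0 < AA n := by omega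
      positivity
    exact (Nat.one_le_div_iff hpos).2 hb
  have h3 : 2 * ((AA n + 1) * (2 * AA n) ^ dd n) ≤ 2 ^ (dd n * lam n ^ 2) := by
    refine le_trans ?_ h1
    calc 2 * ((AA n + 1) * (2 * AA n) ^ dd n)
        ≤ n * ((AA n + 1) * (2 * AA n) ^ dd n) := Nat.mul_le_mul_right _ hn
      _ = 1 * ((AA n + 1) * (2 * AA n) ^ dd n) * n ^ 1 := by ring
      _ ≤ mm n * ((AA n + 1) * (2 * AA n) ^ dd n) * n ^ 1 := by gcongr
  have h4 : 2 ^ (dd n * lam n ^ 2) * (2 * dd n - 1) ^ AA n ≤ (2 * dd n) ^ AA n := by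
    have hdr : (0 : ℝ) < 2 * dd n := by
      have : 0 < dd n := by omega
      positivity
    have e0 : (2 : ℝ) ^ (ex n + 1) = 2 * dd n := by
      unfold dd; push_cast; rw [pow_succ]; ring
    rw [e0] at h2
    have e1 : (1 - 1 / (2 * (dd n : ℝ))) = (2 * dd n - 1) / (2 * dd n) := by
      field_simp
    rw [e1, div_pow, div_le_div_iff₀ (by positivity) (by positivity), one_mul] at h2
    have e2 : ((2 * dd n - 1 : ℕ) : ℝ) = 2 * dd n - 1 := by
      push_cast [Nat.cast_sub (by omega : 1 ≤ 2 * dd n)]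
      ring
    rw [← e2] at h2
    have h2' : (((2 * dd n - 1) ^ AA n * 2 ^ (dd n * lam n ^ 2) : ℕ) : ℝ) ≤
        (((2 * dd n) ^ AA n : ℕ) : ℝ) := by
      push_cast
      exact h2
    have := Nat.cast_le.1 h2'
    rw [mul_comm]
    exact this
  calc 2 * ((AA n + 1) * (2 * AA n) ^ dd n) * (2 * dd n - 1) ^ AA n
      ≤ 2 ^ (dd n * lam n ^ 2) * (2 * dd n - 1) ^ AA n := Nat.mul_le_mul_right _ h3
    _ ≤ (2 * dd n) ^ AA n := h4

/-- A chain with changes at all its steps is not longer than the product of the numbers `w + 1`. -/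
theorem succ_le_freeProd {n : ℕ} (C : Circuit n) (r : ℕ) (x : ℕ → Fin n → Bool)
    (h1 : ∀ i < r, x i ≤ x (i + 1)) (h2 : ∀ i < r, C.Changes (x i) (x (i + 1))) :
    r + 1 ≤ C.freeProd := by
  classical
  have key := changes_lt_freeProd C (fun i => x (min i r)) (fun i p hp => by
    by_cases hi : i < r
    · have e1 : min i r = i := min_eq_left hi.le
      have e2 : min (i + 1) r = i + 1 := min_eq_left hi
      simp only [e1, e2] at hp ⊢
      exact Bool.le_iff_imp.1 (h1 i hi p) hp
    · have e1 : min i r = r := min_eq_right (by omega)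
      have e2 : min (i + 1) r = r := min_eq_right (by omega)
      simp only [e1, e2] at hp ⊢
      exact hp) r
  have hall : ((range r).filter fun i => C.Changes (x (min i r)) (x (min (i + 1) r))) =
      range r := by
    rw [filter_eq_self]
    intro i hi
    rw [mem_range] at hi
    have e1 : min i r = i := min_eq_left hi.le
    have e2 : min (i + 1) r = i + 1 := min_eq_left hi
    rw [e1, e2]
    exact h2 i hi
  rw [hall, card_range] at key
  exact key

/-- **Local flips.** -/
theorem local_flips {n k : ℕ} (h : 64 ≤ lam n) (hk : 2 * (k + 1) + 4 ≤ lam n) (C : Circuit n)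
    (hs : C.size ≤ n ^ k) (hC : ∀ x, C.eval x = true ↔ List.ofFn x ∈ SLang)
    (U : Finset (Fin n)) :
    ∃ r, U.card ≤ (r + 1) * Nat.log 2 n ^ 6 ∧ ∃ x : ℕ → Fin n → Bool,
      (∀ i ≤ r, List.ofFn (x i) ∉ SLang) ∧
      ∀ i < r, x i ≤ x (i + 1) ∧ (∀ p ∉ U, x i p = x (i + 1) p) ∧
        C.Changes (x i) (x (i + 1)) := by
  classical
  have hd := dd_ge h
  have hA := AA_ge h
  have hn : 2 ≤ n := by
    have := n_ge h
    have h3 := ell_ge' h
    have h4 : 2 ^ 1 ≤ 2 ^ Nat.log 2 n := Nat.pow_le_pow_right (by norm_num) (by omega)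
    omega
  have hunit := unit_le h
  have hUn : U.card ≤ n := by simpa using card_le_univ U
  set K := 2 * AA n ^ 2 with hK
  have hKpos : 0 < K := by
    have : 0 < AA n := by omega
    positivity
  set M := K * (2 * nd n + 1) with hM
  have hMpos : 0 < M := by positivity
  set r := (U.card - 2 * nd n) / M with hr
  have hrM : r * M ≤ U.card - 2 * nd n := Nat.div_mul_le_self _ _
  have hUr : U.card ≤ (r + 1) * Nat.log 2 n ^ 6 := by
    have h1 : U.card - 2 * nd n < (r + 1) * M := by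
      have := Nat.lt_mul_div_succ (U.card - 2 * nd n) hMpos
      rw [mul_comm (r + 1) M]
      exact this
    have h2 : (r + 1) * M + 2 * nd n ≤ (r + 1) * (M + 2 * nd n) := by nlinarith
    have h3 : (r + 1) * (M + 2 * nd n) ≤ (r + 1) * Nat.log 2 n ^ 6 := Nat.mul_le_mul_left _ hunit
    omega
  have hrn : r ≤ n := by
    have : r * 1 ≤ r * M := Nat.mul_le_mul_left _ hMpos
    omega
  have hndn : 2 * nd n ≤ n := by
    have h1 := unit_le h
    have h2 : Nat.log 2 n ^ 6 ≤ Nat.log 2 n ^ 8 :=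
      Nat.pow_le_pow_right (by have := ell_ge' h; omega) (by norm_num)
    have h3 := pow_bound _ (ell_ge' h)
    have h4 := n_ge h
    omega
  have hT : ad n (1 + r * K) + r * K ≤ max U.card n := by
    have e1 : ad n (1 + r * K) + r * K = 2 * nd n + r * M := by
      unfold ad
      rw [hM]
      ring
    rw [e1]
    by_cases hU0 : U.card ≤ 2 * nd n
    · have : r * M ≤ 0 := by omega
      have h5 : 2 * nd n + r * M ≤ n := by omega
      exact h5.trans (le_max_right _ _)
    · have h5 : 2 * nd n + r * M ≤ U.card := by omega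
      exact h5.trans (le_max_left _ _)
  have hTn : ad n (1 + r * K) ≤ n := by
    have : max U.card n = n := max_eq_right hUn
    omega
  -- the positions
  obtain ⟨pos, hpos, hpT⟩ : ∃ pos : Fin (r * K) → Fin n, Function.Injective pos ∧
      ∀ p, pos p ∈ U ∧ ad n (1 + r * K) ≤ (pos p).val := by
    have hcard : r * K ≤ Fintype.card {p : Fin n // p ∈ U ∧ ad n (1 + r * K) ≤ p.val} := by
      rcases Nat.eq_zero_or_pos r with h0 | h0
      · rw [h0, Nat.zero_mul]
        exact Nat.zero_le _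
      · have e1 : ad n (1 + r * K) + r * K = 2 * nd n + r * M := by
          unfold ad
          rw [hM]
          ring
        have e2 : 0 < r * M := Nat.mul_pos h0 hMpos
        have e3 : ad n (1 + r * K) + r * K ≤ U.card := by omega
        have e4 : U.card ≤ (U.filter fun p => ad n (1 + r * K) ≤ p.val).card
            + (U.filter fun p => ¬ ad n (1 + r * K) ≤ p.val).card := by
          rw [card_filter_add_card_filter_not]
        have e5 : (U.filter fun p => ¬ ad n (1 + r * K) ≤ p.val).card ≤ ad n (1 + r * K) := by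
          calc (U.filter fun p => ¬ ad n (1 + r * K) ≤ p.val).card
              ≤ (range (ad n (1 + r * K))).card := by
                refine card_le_card_of_injOn (fun p => p.val) ?_ ?_
                · intro p hp
                  simp only [coe_filter, Set.mem_ofPred_eq] at hp
                  simp only [coe_range, Set.mem_Iio]
                  omega
                · intro p _ p' _ hpp
                  exact Fin.ext hpp
            _ = _ := card_range _
        rw [Fintype.card_subtype]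
        have e6 : (univ.filter fun p : Fin n => p ∈ U ∧ ad n (1 + r * K) ≤ p.val) =
            U.filter fun p => ad n (1 + r * K) ≤ p.val := by
          ext p
          simp
        rw [e6]
        omega
    obtain ⟨e⟩ := Function.Embedding.nonempty_of_card_le
      (α := Fin (r * K)) (β := {p : Fin n // p ∈ U ∧ ad n (1 + r * K) ≤ p.val}) (by simpa using hcard)
    exact ⟨fun p => (e p).1, fun p p' hp => e.injective (Subtype.ext hp), fun p => (e p).2⟩
  have hlow : ∀ (t : ℕ) (S : Set (Finset (Fin (AA n) × Fin (2 * AA n)) → Prop)),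
      Comp (Fin (AA n) × Fin (2 * AA n)) t S → polyFun (AA n) (dd n) ∈ S → C.size + 1 < t := by
    intro t S hS hf
    have h1 := polyFun_lower (by omega) hA (hnum_bound h) hS hf
    have h2 := err_bound h k 1 hk hs
    have h3 : 2 ^ dd n = 2 * 2 ^ (dd n - 1) := by
      conv_lhs => rw [show dd n = dd n - 1 + 1 by omega, pow_succ]
      ring
    rw [h3, pow_one] at h2
    have h4 : (C.size + 1) * n ≤ 2 ^ (dd n - 1) := by nlinarith
    have h5 : (C.size + 1) * 2 ≤ (C.size + 1) * n := Nat.mul_le_mul_left _ hn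
    omega
  obtain ⟨x, hx1, hx2⟩ := exists_chain (pos := pos) hrn hTn (fun p => (hpT p).2) hpos C hC hlow
    (by omega)
  refine ⟨r, hUr, x, hx1, fun i hi => ⟨(hx2 i hi).1, fun p hp => ?_, (hx2 i hi).2.2⟩⟩
  by_contra hne
  obtain ⟨u, hu⟩ := (hx2 i hi).2.1 p hne
  rw [← hu] at hp
  exact hp (hpT u).1

end Pool.Agent.H547R2
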