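import Mathlib

/-!
# Circuits with few NOT gates: straight-line computations of sets of functions
-/

namespace Pool.Agent.H547R2.Mag

/-- A node of a Boolean circuit: an input variable, a constant, a NOT gate, or an AND or OR gate of
fan-in two. Earlier nodes are referred to by their position in the list of nodes. -/
inductive Gate where
  | input (i : ℕ)
  | const (b : Bool)
  | not (u : ℕ)
  | and (u v : ℕ)
  | or (u v : ℕ)

/-- The value of a node at the input word `w`, where `l` is the list of the values of the nodes
before it. (A reference to a position without a node or a variable gives the value 0.) -/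
def Gate.val (w l : List Bool) : Gate → Bool
  | Gate.input i => w.getD i false
  | Gate.const b => b
  | Gate.not u => !l.getD u false
  | Gate.and u v => l.getD u false && l.getD v false
  | Gate.or u v => l.getD u false || l.getD v false

/-- Is the node an AND or OR gate? -/
def Gate.isBin : Gate → Bool
  | Gate.and _ _ => true
  | Gate.or _ _ => true
  | _ => false

/-- Is the node a NOT gate? -/
def Gate.isNot : Gate → Bool
  | Gate.not _ => true
  | _ => false

/-- The values of the nodes at the input word `w`, in order. -/
def vals (w : List Bool) (C : List Gate) : List Bool :=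
  C.foldl (fun l g => l ++ [g.val w l]) []

/-- A Boolean circuit: its nodes, each of which may use the earlier ones, and the position of the
output node. -/
structure Circ where
  nodes : List Gate
  output : ℕ

/-- The value computed by the circuit at the input word `w`. -/
def Circ.eval (C : Circ) (w : List Bool) : Bool := (vals w C.nodes).getD C.output false

/-- The size: the number of AND and OR gates. -/
def Circ.size (C : Circ) : ℕ := C.nodes.countP Gate.isBin

/-- The number of NOT gates. -/
def Circ.nots (C : Circ) : ℕ := C.nodes.countP Gate.isNot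

/-! ### Computations -/

variable {X Y : Type}

/-- `Comp S a b T`: from the functions in `S` one can compute all functions in `T` with `a` AND/OR
gates and `b` NOT gates. -/
inductive Comp (S : Set (X → Bool)) : ℕ → ℕ → Set (X → Bool) → Prop
  | refl : Comp S 0 0 S
  | sub {a b a' b' : ℕ} {T T' : Set (X → Bool)} : Comp S a b T → T' ⊆ T → a ≤ a' → b ≤ b' →
      Comp S a' b' T'
  | and {a b : ℕ} {T : Set (X → Bool)} {f g : X → Bool} : Comp S a b T → f ∈ T → g ∈ T →
      Comp S (a + 1) b (insert (fun x => f x && g x) T)
  | or {a b : ℕ} {T : Set (X → Bool)} {f g : X → Bool} : Comp S a b T → f ∈ T → g ∈ T →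
      Comp S (a + 1) b (insert (fun x => f x || g x) T)
  | not {a b : ℕ} {T : Set (X → Bool)} {f : X → Bool} : Comp S a b T → f ∈ T →
      Comp S a (b + 1) (insert (fun x => !f x) T)

namespace Comp

theorem weaken {S S' T : Set (X → Bool)} {a b : ℕ} (h : Comp S a b T) (hS : S ⊆ S') :
    Comp S' a b (T ∪ S') := by
  induction h with
  | refl => exact (Comp.refl).sub (Set.union_subset hS subset_rfl) le_rfl le_rfl
  | sub _ h1 h2 h3 ih => exact ih.sub (Set.union_subset_union_left _ h1) h2 h3
  | and _ hf hg ih =>
    refine (ih.and (Set.mem_union_left _ hf) (Set.mem_union_left _ hg)).sub ?_ le_rfl le_rfl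
    rw [Set.insert_union]
  | or _ hf hg ih =>
    refine (ih.or (Set.mem_union_left _ hf) (Set.mem_union_left _ hg)).sub ?_ le_rfl le_rfl
    rw [Set.insert_union]
  | not _ hf ih =>
    refine (ih.not (Set.mem_union_left _ hf)).sub ?_ le_rfl le_rfl
    rw [Set.insert_union]

theorem keep {S T : Set (X → Bool)} {a b : ℕ} (h : Comp S a b T) : Comp S a b (T ∪ S) :=
  h.weaken subset_rfl

theorem trans {S T U : Set (X → Bool)} {a b a' b' : ℕ} (h : Comp S a b T) (h' : Comp T a' b' U) :
    Comp S (a + a') (b + b') U := by
  induction h' with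
  | refl => exact h
  | sub _ h1 h2 h3 ih => exact ih.sub h1 (by omega) (by omega)
  | and _ hf hg ih => exact ih.and hf hg
  | or _ hf hg ih => exact ih.or hf hg
  | not _ hf ih => exact ih.not hf

theorem union {S T T' : Set (X → Bool)} {a b a' b' : ℕ} (h : Comp S a b T)
    (h' : Comp S a' b' T') : Comp S (a + a') (b + b') (T ∪ T') := by
  have h1 : Comp (T ∪ S) a' b' (T' ∪ (T ∪ S)) := h'.weaken Set.subset_union_right
  refine (h.keep.trans h1).sub ?_ le_rfl le_rfl
  intro f hf
  rcases hf with hf | hf
  · exact Or.inr (Or.inl hf)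
  · exact Or.inl hf

/-- Continue a computation, keeping the initial functions. -/
theorem trans_union {S T U : Set (X → Bool)} {a b a' b' : ℕ} (h : Comp S a b T)
    (h' : Comp (T ∪ S) a' b' U) : Comp S (a + a') (b + b') (U ∪ (T ∪ S)) :=
  h.keep.trans h'.keep

theorem mem_of_refl {S T : Set (X → Bool)} (h : T ⊆ S) : Comp S 0 0 T :=
  (Comp.refl).sub h le_rfl le_rfl

theorem iUnion_range {S : Set (X → Bool)} {T : ℕ → Set (X → Bool)} {a : ℕ} (m : ℕ)
    (h : ∀ i < m, Comp S a 0 (T i)) : Comp S (m * a) 0 {f | ∃ i < m, f ∈ T i} := by
  induction m with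
  | zero =>
    refine (Comp.refl).sub ?_ (by simp) le_rfl
    rintro f ⟨i, hi, _⟩
    omega
  | succ m ih =>
    refine ((ih fun i hi => h i (by omega)).union (h m (by omega))).sub ?_
      (by rw [Nat.succ_mul]) le_rfl
    rintro f ⟨i, hi, hf⟩
    by_cases h1 : i = m
    · subst h1; exact Or.inr hf
    · exact Or.inl ⟨i, by omega, hf⟩

/-- Substitution. -/
theorem subst (φ : Y → X) {S T : Set (X → Bool)} {a b : ℕ} (h : Comp S a b T) :
    Comp ((fun f => f ∘ φ) '' S) a b ((fun f => f ∘ φ) '' T) := by
  induction h with
  | refl => exact Comp.refl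
  | sub _ h1 h2 h3 ih => exact ih.sub (Set.image_mono h1) h2 h3
  | @and _ _ _ f g _ hf hg ih =>
    refine (ih.and (Set.mem_image_of_mem _ hf) (Set.mem_image_of_mem _ hg)).sub ?_ le_rfl le_rfl
    rw [Set.image_insert_eq]
    rfl
  | @or _ _ _ f g _ hf hg ih =>
    refine (ih.or (Set.mem_image_of_mem _ hf) (Set.mem_image_of_mem _ hg)).sub ?_ le_rfl le_rfl
    rw [Set.image_insert_eq]
    rfl
  | @not _ _ _ f _ hf ih =>
    refine (ih.not (Set.mem_image_of_mem _ hf)).sub ?_ le_rfl le_rfl
    rw [Set.image_insert_eq]
    rfl

/-- Functions computed without NOT gates from monotone functions are monotone. -/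
theorem monotone [Preorder X] {S T : Set (X → Bool)} {a b : ℕ} (h : Comp S a b T) (hb : b = 0)
    (hS : ∀ f ∈ S, Monotone f) : ∀ f ∈ T, Monotone f := by
  induction h with
  | refl => exact hS
  | sub _ h1 h2 h3 ih => exact fun f hf => ih (by omega) f (h1 hf)
  | and _ hf hg ih =>
    intro f hf'
    rcases Set.mem_insert_iff.1 hf' with rfl | hf'
    · intro x y hxy
      have h1 := ih hb _ hf hxy
      have h2 := ih hb _ hg hxy
      exact inf_le_inf h1 h2
    · exact ih hb f hf'
  | or _ hf hg ih =>
    intro f hf'
    rcases Set.mem_insert_iff.1 hf' with rfl | hf'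
    · intro x y hxy
      have h1 := ih hb _ hf hxy
      have h2 := ih hb _ hg hxy
      exact sup_le_sup h1 h2
    · exact ih hb f hf'
  | not _ hf ih => omega

/-- An OR of `m` given functions. -/
theorem bigOr {S : Set (X → Bool)} (m : ℕ) (F : ℕ → X → Bool) (h : ∀ i < m, F i ∈ S)
    (h0 : (fun _ => false) ∈ S) :
    Comp S m 0 (insert (fun x => decide (∃ i < m, F i x = true)) S) := by
  induction m with
  | zero =>
    refine (Comp.refl).sub ?_ le_rfl le_rfl
    refine Set.insert_subset ?_ subset_rfl
    simpa using h0
  | succ m ih =>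
    have h1 := ih fun i hi => h i (by omega)
    refine (h1.or (Set.mem_insert _ _) (Set.mem_insert_of_mem _ (h m (by omega)))).sub ?_ le_rfl
      le_rfl
    refine Set.insert_subset ?_ fun f hf => Set.mem_insert_of_mem _ (Set.mem_insert_of_mem _ hf)
    refine Set.mem_insert_iff.2 (Or.inl ?_)
    funext x
    rw [Bool.eq_iff_iff]
    simp only [decide_eq_true_eq, Bool.or_eq_true]
    constructor
    · rintro ⟨i, hi, h'⟩
      by_cases h2 : i = m
      · rw [h2] at h'; exact Or.inr h'
      · exact Or.inl ⟨i, by omega, h'⟩
    · rintro (⟨i, hi, h'⟩ | h')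
      · exact ⟨i, by omega, h'⟩
      · exact ⟨m, by omega, h'⟩

end Comp

/-! ### From computations to circuits and back -/

/-- The input variables and the constants, as functions on `{0,1}^n`. -/
def base (n : ℕ) : Set ((Fin n → Bool) → Bool) :=
  {f | (∃ i : Fin n, f = fun x => x i) ∨ ∃ b : Bool, f = fun _ => b}

theorem var_mem {n : ℕ} (i : Fin n) : (fun x : Fin n → Bool => x i) ∈ base n := Or.inl ⟨i, rfl⟩

theorem const_mem {n : ℕ} (b : Bool) : (fun _ : Fin n → Bool => b) ∈ base n := Or.inr ⟨b, rfl⟩

theorem vals_append_singleton (w : List Bool) (C : List Gate) (g : Gate) :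
    vals w (C ++ [g]) = vals w C ++ [g.val w (vals w C)] := by
  simp [vals]

theorem length_vals (w : List Bool) (C : List Gate) : (vals w C).length = C.length := by
  induction C using List.reverseRecOn with
  | nil => rfl
  | append_singleton C g ih => rw [vals_append_singleton]; simp [ih]

theorem getD_vals_append {w : List Bool} {C : List Gate} {g : Gate} {u : ℕ} (hu : u < C.length) :
    (vals w (C ++ [g])).getD u false = (vals w C).getD u false := by
  rw [vals_append_singleton, List.getD_append]
  rwa [length_vals]

theorem getD_vals_last {w : List Bool} {C : List Gate} {g : Gate} :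
    (vals w (C ++ [g])).getD C.length false = g.val w (vals w C) := by
  rw [vals_append_singleton, List.getD_append_right]
  · simp [length_vals]
  · rw [length_vals]

theorem getD_ofFn' {n : ℕ} (x : Fin n → Bool) (i : Fin n) :
    (List.ofFn x).getD i false = x i := by
  simp [List.getD]

/-- A computation from the inputs gives a circuit. -/
theorem Comp.exists_list {n : ℕ} {S T : Set ((Fin n → Bool) → Bool)} {a b : ℕ}
    (h : Comp S a b T) (hS : S = base n) :
    ∃ C : List Gate, C.countP Gate.isBin ≤ a ∧ C.countP Gate.isNot ≤ b ∧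
      ∀ f ∈ T, ∃ u < C.length, ∀ x, (vals (List.ofFn x) C).getD u false = f x := by
  induction h with
  | refl =>
    subst hS
    suffices h : ∀ m ≤ n, ∃ C : List Gate, C.countP Gate.isBin = 0 ∧ C.countP Gate.isNot = 0 ∧
        (∀ i : Fin n, i.1 < m → ∃ u < C.length, ∀ x : Fin n → Bool,
          (vals (List.ofFn x) C).getD u false = x i) ∧
        ∀ b : Bool, ∃ u < C.length, ∀ x : Fin n → Bool,
          (vals (List.ofFn x) C).getD u false = b by
      obtain ⟨C, h1, h2, h3, h4⟩ := h n le_rfl
      refine ⟨C, h1.le, h2.le, ?_⟩
      rintro f (⟨i, rfl⟩ | ⟨b, rfl⟩)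
      · exact h3 i i.2
      · exact h4 b
    intro m
    induction m with
    | zero =>
      intro _
      refine ⟨[Gate.const false, Gate.const true], rfl, rfl, fun i hi => absurd hi (by omega), ?_⟩
      intro b
      cases b with
      | false => exact ⟨0, by simp, fun x => by simp [vals, Gate.val]⟩
      | true => exact ⟨1, by simp, fun x => by simp [vals, Gate.val]⟩
    | succ m ih =>
      intro hm
      obtain ⟨C, h1, h2, h3, h4⟩ := ih (by omega)
      refine ⟨C ++ [Gate.input m], ?_, ?_, ?_, ?_⟩
      · rw [List.countP_append, h1]; rfl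
      · rw [List.countP_append, h2]; rfl
      · intro i hi
        by_cases him : i.1 = m
        · refine ⟨C.length, by simp, fun x => ?_⟩
          rw [getD_vals_last, Gate.val, ← him]
          exact getD_ofFn' x i
        · obtain ⟨u, hu, h⟩ := h3 i (by omega)
          refine ⟨u, by simp; omega, fun x => ?_⟩
          rw [getD_vals_append hu, h]
      · intro b
        obtain ⟨u, hu, h⟩ := h4 b
        refine ⟨u, by simp; omega, fun x => ?_⟩
        rw [getD_vals_append hu, h]
  | sub _ h1 h2 h3 ih =>
    obtain ⟨C, hC1, hC2, hC3⟩ := ih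
    exact ⟨C, hC1.trans h2, hC2.trans h3, fun f hf => hC3 f (h1 hf)⟩
  | @and _ _ _ f g _ hf hg ih =>
    obtain ⟨C, hC1, hC2, hC3⟩ := ih
    obtain ⟨u, hu, hu'⟩ := hC3 f hf
    obtain ⟨v, hv, hv'⟩ := hC3 g hg
    refine ⟨C ++ [Gate.and u v], ?_, ?_, ?_⟩
    · rw [List.countP_append]
      exact Nat.add_le_add hC1 le_rfl
    · rw [List.countP_append]
      exact hC2
    · intro k hk
      rcases Set.mem_insert_iff.1 hk with rfl | hk
      · refine ⟨C.length, by simp, fun x => ?_⟩
        rw [getD_vals_last, Gate.val, hu', hv']
      · obtain ⟨z, hz, h⟩ := hC3 k hk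
        refine ⟨z, by simp; omega, fun x => ?_⟩
        rw [getD_vals_append hz, h]
  | @or _ _ _ f g _ hf hg ih =>
    obtain ⟨C, hC1, hC2, hC3⟩ := ih
    obtain ⟨u, hu, hu'⟩ := hC3 f hf
    obtain ⟨v, hv, hv'⟩ := hC3 g hg
    refine ⟨C ++ [Gate.or u v], ?_, ?_, ?_⟩
    · rw [List.countP_append]
      exact Nat.add_le_add hC1 le_rfl
    · rw [List.countP_append]
      exact hC2
    · intro k hk
      rcases Set.mem_insert_iff.1 hk with rfl | hk
      · refine ⟨C.length, by simp, fun x => ?_⟩
        rw [getD_vals_last, Gate.val, hu', hv']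
      · obtain ⟨z, hz, h⟩ := hC3 k hk
        refine ⟨z, by simp; omega, fun x => ?_⟩
        rw [getD_vals_append hz, h]
  | @not _ _ _ f _ hf ih =>
    obtain ⟨C, hC1, hC2, hC3⟩ := ih
    obtain ⟨u, hu, hu'⟩ := hC3 f hf
    refine ⟨C ++ [Gate.not u], ?_, ?_, ?_⟩
    · rw [List.countP_append]
      exact hC1
    · rw [List.countP_append]
      exact Nat.add_le_add hC2 le_rfl
    · intro k hk
      rcases Set.mem_insert_iff.1 hk with rfl | hk
      · refine ⟨C.length, by simp, fun x => ?_⟩
        rw [getD_vals_last, Gate.val, hu']
      · obtain ⟨z, hz, h⟩ := hC3 k hk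
        refine ⟨z, by simp; omega, fun x => ?_⟩
        rw [getD_vals_append hz, h]

/-- A circuit from a computation. -/
theorem Comp.exists_circ {n a b : ℕ} {f : (Fin n → Bool) → Bool} (h : Comp (base n) a b {f}) :
    ∃ C : Circ, C.size ≤ a ∧ C.nots ≤ b ∧ ∀ x, C.eval (List.ofFn x) = f x := by
  obtain ⟨C, h1, h2, h3⟩ := h.exists_list rfl
  obtain ⟨u, _, hu⟩ := h3 f rfl
  exact ⟨⟨C, u⟩, h1, h2, hu⟩

/-- The functions computed at the nodes of a circuit, under a substitution of its inputs. -/
theorem comp_of_list {X : Type} (S : Set (X → Bool)) (hS : ∀ b : Bool, (fun _ => b) ∈ S)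
    (W : X → List Bool) (hW : ∀ i, (fun x => (W x).getD i false) ∈ S) (C : List Gate) :
    Comp S (C.countP Gate.isBin) (C.countP Gate.isNot)
      (S ∪ {f | ∃ u, f = fun x => (vals (W x) C).getD u false}) := by
  induction C using List.reverseRecOn with
  | nil =>
    refine (Comp.refl).sub ?_ le_rfl le_rfl
    refine Set.union_subset subset_rfl ?_
    rintro f ⟨u, rfl⟩
    simpa [vals] using hS false
  | append_singleton C g ih =>
    have hmem : ∀ u, (fun x => (vals (W x) C).getD u false) ∈
        S ∪ {f | ∃ u, f = fun x => (vals (W x) C).getD u false} := fun u => Or.inr ⟨u, rfl⟩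
    have key : ∀ {a b : ℕ} {T : Set (X → Bool)}, Comp S a b T →
        (S ∪ {f | ∃ u, f = fun x => (vals (W x) C).getD u false}) ⊆ T →
        (fun x => g.val (W x) (vals (W x) C)) ∈ T →
        Comp S a b (S ∪ {f | ∃ u, f = fun x => (vals (W x) (C ++ [g])).getD u false}) := by
      intro a b T hT h1 h2
      refine hT.sub ?_ le_rfl le_rfl
      refine Set.union_subset (fun f hf => h1 (Or.inl hf)) ?_
      rintro f ⟨u, rfl⟩
      rcases lt_trichotomy u C.length with hu | hu | hu
      · have : (fun x => (vals (W x) (C ++ [g])).getD u false) =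
            fun x => (vals (W x) C).getD u false := by
          funext x; exact getD_vals_append hu
        rw [this]
        exact h1 (hmem u)
      · subst hu
        have : (fun x => (vals (W x) (C ++ [g])).getD C.length false) =
            fun x => g.val (W x) (vals (W x) C) := by
          funext x; exact getD_vals_last
        rw [this]
        exact h2
      · have : (fun x => (vals (W x) (C ++ [g])).getD u false) = fun _ => false := by
          funext x
          rw [List.getD_eq_default]
          rw [length_vals]
          simp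
          omega
        rw [this]
        exact h1 (Or.inl (hS false))
    cases g with
    | input i =>
      rw [List.countP_append, List.countP_append]
      refine key (ih.sub subset_rfl (Nat.le_add_right _ _) (Nat.le_add_right _ _)) subset_rfl
        (Or.inl (hW i))
    | const c =>
      rw [List.countP_append, List.countP_append]
      refine key (ih.sub subset_rfl (Nat.le_add_right _ _) (Nat.le_add_right _ _)) subset_rfl
        (Or.inl (hS c))
    | not u =>
      rw [List.countP_append, List.countP_append]
      exact key (ih.not (hmem u)) (Set.subset_insert _ _) (Set.mem_insert _ _)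
    | and u v =>
      rw [List.countP_append, List.countP_append]
      exact key (ih.and (hmem u) (hmem v)) (Set.subset_insert _ _) (Set.mem_insert _ _)
    | or u v =>
      rw [List.countP_append, List.countP_append]
      exact key (ih.or (hmem u) (hmem v)) (Set.subset_insert _ _) (Set.mem_insert _ _)

/-- The function computed by a circuit, as a computation. -/
theorem Circ.comp (C : Circ) (n : ℕ) :
    Comp (base n) C.size C.nots {fun x => C.eval (List.ofFn x)} := by
  refine (comp_of_list (base n) (fun b => const_mem b) (fun x => List.ofFn x) (fun i => ?_)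
    C.nodes).sub ?_ le_rfl le_rfl
  · by_cases hi : i < n
    · have : (fun x : Fin n → Bool => (List.ofFn x).getD i false) = fun x => x ⟨i, hi⟩ := by
        funext x; exact getD_ofFn' x ⟨i, hi⟩
      rw [this]
      exact var_mem _
    · have : (fun x : Fin n → Bool => (List.ofFn x).getD i false) = fun _ => false := by
        funext x
        rw [List.getD_eq_default]
        simp; omega
      rw [this]
      exact const_mem _
  · rw [Set.singleton_subset_iff]
    exact Or.inr ⟨C.output, rfl⟩

end Pool.Agent.H547R2.Mag
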