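import Pool.Agent.H547R2.Mag1

/-!
# A monotone function with small circuits has small circuits with few NOT gates
-/

namespace Pool.Agent.H547R2.Mag

variable {n : ℕ}

/-! ### Pushing negations to the inputs -/

/-- The inputs `x_i`, `y_i` and the constants on pairs of words. -/
def base2 (n : ℕ) : Set ((Fin n → Bool) × (Fin n → Bool) → Bool) :=
  {f | (∃ i : Fin n, f = fun p => p.1 i) ∨ (∃ i : Fin n, f = fun p => p.2 i) ∨
    ∃ b : Bool, f = fun _ => b}

theorem monotone_base2 : ∀ f ∈ base2 n, Monotone f := by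
  rintro f (⟨i, rfl⟩ | ⟨i, rfl⟩ | ⟨b, rfl⟩)
  · exact fun p q h => h.1 i
  · exact fun p q h => h.2 i
  · exact monotone_const

theorem doubling {S T : Set ((Fin n → Bool) → Bool)} {a b : ℕ} (h : Comp S a b T)
    (hS : S = base n) :
    ∃ T' : Set ((Fin n → Bool) × (Fin n → Bool) → Bool), Comp (base2 n) (2 * a) 0 T' ∧
      ∀ f ∈ T, (∃ g ∈ T', ∀ x, g (x, fun i => !x i) = f x) ∧
        ∃ g ∈ T', ∀ x, g (x, fun i => !x i) = !f x := by
  induction h with
  | refl =>
    subst hS
    refine ⟨base2 n, Comp.refl, ?_⟩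
    rintro f (⟨i, rfl⟩ | ⟨b, rfl⟩)
    · exact ⟨⟨_, Or.inl ⟨i, rfl⟩, fun x => rfl⟩, ⟨_, Or.inr (Or.inl ⟨i, rfl⟩), fun x => rfl⟩⟩
    · exact ⟨⟨_, Or.inr (Or.inr ⟨b, rfl⟩), fun x => rfl⟩,
        ⟨_, Or.inr (Or.inr ⟨!b, rfl⟩), fun x => rfl⟩⟩
  | sub _ h1 h2 h3 ih =>
    obtain ⟨T', h4, h5⟩ := ih
    exact ⟨T', h4.sub subset_rfl (by omega) le_rfl, fun f hf => h5 f (h1 hf)⟩
  | @and _ _ _ f g _ hf hg ih =>
    obtain ⟨T', h4, h5⟩ := ih
    obtain ⟨⟨f1, hf1, hf1'⟩, ⟨f2, hf2, hf2'⟩⟩ := h5 f hf
    obtain ⟨⟨g1, hg1, hg1'⟩, ⟨g2, hg2, hg2'⟩⟩ := h5 g hg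
    refine ⟨_, ((h4.and hf1 hg1).or (Set.mem_insert_of_mem _ hf2)
      (Set.mem_insert_of_mem _ hg2)).sub subset_rfl (by omega) le_rfl, ?_⟩
    intro k hk
    rcases Set.mem_insert_iff.1 hk with rfl | hk
    · refine ⟨⟨_, Set.mem_insert_of_mem _ (Set.mem_insert _ _), fun x => ?_⟩,
        ⟨_, Set.mem_insert _ _, fun x => ?_⟩⟩
      · simp only [hf1', hg1']
      · simp only [hf2', hg2', Bool.not_and]
    · obtain ⟨⟨k1, hk1, hk1'⟩, ⟨k2, hk2, hk2'⟩⟩ := h5 k hk
      exact ⟨⟨k1, Set.mem_insert_of_mem _ (Set.mem_insert_of_mem _ hk1), hk1'⟩,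
        ⟨k2, Set.mem_insert_of_mem _ (Set.mem_insert_of_mem _ hk2), hk2'⟩⟩
  | @or _ _ _ f g _ hf hg ih =>
    obtain ⟨T', h4, h5⟩ := ih
    obtain ⟨⟨f1, hf1, hf1'⟩, ⟨f2, hf2, hf2'⟩⟩ := h5 f hf
    obtain ⟨⟨g1, hg1, hg1'⟩, ⟨g2, hg2, hg2'⟩⟩ := h5 g hg
    refine ⟨_, ((h4.or hf1 hg1).and (Set.mem_insert_of_mem _ hf2)
      (Set.mem_insert_of_mem _ hg2)).sub subset_rfl (by omega) le_rfl, ?_⟩
    intro k hk
    rcases Set.mem_insert_iff.1 hk with rfl | hk
    · refine ⟨⟨_, Set.mem_insert_of_mem _ (Set.mem_insert _ _), fun x => ?_⟩,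
        ⟨_, Set.mem_insert _ _, fun x => ?_⟩⟩
      · simp only [hf1', hg1']
      · simp only [hf2', hg2', Bool.not_or]
    · obtain ⟨⟨k1, hk1, hk1'⟩, ⟨k2, hk2, hk2'⟩⟩ := h5 k hk
      exact ⟨⟨k1, Set.mem_insert_of_mem _ (Set.mem_insert_of_mem _ hk1), hk1'⟩,
        ⟨k2, Set.mem_insert_of_mem _ (Set.mem_insert_of_mem _ hk2), hk2'⟩⟩
  | @not _ _ _ f _ hf ih =>
    obtain ⟨T', h4, h5⟩ := ih
    refine ⟨T', h4, fun k hk => ?_⟩
    rcases Set.mem_insert_iff.1 hk with rfl | hk
    · obtain ⟨h6, h7⟩ := h5 f hf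
      refine ⟨h7, ?_⟩
      obtain ⟨g, hg, hg'⟩ := h6
      exact ⟨g, hg, fun x => by rw [hg', Bool.not_not]⟩
    · exact h5 k hk

/-! ### Weights and thresholds -/

/-- The number of ones. -/
def wt (x : Fin n → Bool) : ℕ := (Finset.univ.filter fun i => x i = true).card

theorem wt_le (x : Fin n → Bool) : wt x ≤ n := by
  have := Finset.card_filter_le (Finset.univ : Finset (Fin n)) (fun i => x i = true)
  simpa [wt] using this

/-- The number of ones among the first `j` variables. -/
def pw (j : ℕ) (x : Fin n → Bool) : ℕ :=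
  (Finset.univ.filter fun i : Fin n => i.1 < j ∧ x i = true).card

theorem pw_n (x : Fin n → Bool) : pw n x = wt x := by
  unfold pw wt
  congr 1
  ext i
  simp

theorem pw_zero (x : Fin n → Bool) : pw 0 x = 0 := by simp [pw]

theorem pw_succ {j : ℕ} (hj : j < n) (x : Fin n → Bool) :
    pw (j + 1) x = pw j x + (if x ⟨j, hj⟩ = true then 1 else 0) := by
  unfold pw
  have h : (Finset.univ.filter fun i : Fin n => i.1 < j + 1 ∧ x i = true) =
      (Finset.univ.filter fun i : Fin n => i.1 < j ∧ x i = true) ∪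
        (if x ⟨j, hj⟩ = true then {⟨j, hj⟩} else ∅) := by
    ext i
    simp only [Finset.mem_filter, Finset.mem_univ, true_and, Finset.mem_union]
    split_ifs with h
    · simp only [Finset.mem_singleton]
      constructor
      · rintro ⟨h1, h2⟩
        by_cases h3 : i.1 = j
        · right; exact Fin.ext h3
        · left; exact ⟨by omega, h2⟩
      · rintro (⟨h1, h2⟩ | rfl)
        · exact ⟨by omega, h2⟩
        · exact ⟨Nat.lt_succ_self _, h⟩
    · simp only [Finset.notMem_empty, or_false]
      constructor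
      · rintro ⟨h1, h2⟩
        by_cases h3 : i.1 = j
        · exfalso
          apply h
          rw [← h2]
          congr 1
          exact Fin.ext h3.symm
        · exact ⟨by omega, h2⟩
      · rintro ⟨h1, h2⟩
        exact ⟨by omega, h2⟩
  rw [h, Finset.card_union_of_disjoint]
  · split_ifs <;> simp
  · split_ifs
    · rw [Finset.disjoint_singleton_right]
      simp
    · simp

theorem pw_le (j : ℕ) (x : Fin n → Bool) : pw j x ≤ j := by
  induction j with
  | zero => simp [pw_zero]
  | succ j ih =>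
    by_cases hj : j < n
    · rw [pw_succ hj]
      split_ifs <;> omega
    · have : pw (j + 1) x = pw j x := by
        unfold pw
        congr 1
        ext i
        have := i.2
        simp only [Finset.mem_filter, Finset.mem_univ, true_and]
        constructor
        · rintro ⟨h1, h2⟩; exact ⟨by omega, h2⟩
        · rintro ⟨h1, h2⟩; exact ⟨by omega, h2⟩
      omega

/-- The threshold functions have monotone circuits of size `2 n ^ 2`, all together. -/
theorem comp_pw : ∀ j ≤ n, Comp (base n) (j * (n * 2)) 0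
    ({f | ∃ k, f = fun x => decide (k ≤ pw j x)} ∪ base n) := by
  intro j
  induction j with
  | zero =>
    intro _
    refine (Comp.refl).sub ?_ (by simp) le_rfl
    refine Set.union_subset ?_ subset_rfl
    rintro f ⟨k, rfl⟩
    refine Or.inr ⟨decide (k ≤ 0), ?_⟩
    funext x
    rw [pw_zero]
  | succ j ih =>
    intro hj
    have hj' : j < n := by omega
    set S := ({f | ∃ k, f = fun x : Fin n → Bool => decide (k ≤ pw j x)} ∪ base n) with hS
    have h1 : ∀ k < n, Comp S 2 0
        {fun x : Fin n → Bool => decide (k + 1 ≤ pw (j + 1) x)} := by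
      intro k _
      have hk : (fun x : Fin n → Bool => decide (k ≤ pw j x)) ∈ S := Or.inl ⟨k, rfl⟩
      have hk1 : (fun x : Fin n → Bool => decide (k + 1 ≤ pw j x)) ∈ S := Or.inl ⟨k + 1, rfl⟩
      have hx : (fun x : Fin n → Bool => x ⟨j, hj'⟩) ∈ S := Or.inr (var_mem _)
      have := (((Comp.refl (S := S)).and hx hk).or (Set.mem_insert_of_mem _ hk1)
        (Set.mem_insert _ _))
      refine this.sub ?_ le_rfl le_rfl
      rw [Set.singleton_subset_iff]
      refine Set.mem_insert_iff.2 (Or.inl ?_)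
      funext x
      rw [pw_succ hj', Bool.eq_iff_iff]
      simp only [decide_eq_true_eq, Bool.or_eq_true, Bool.and_eq_true]
      split_ifs with h
      · simp only [h, true_and]
        constructor
        · intro h2; right; omega
        · rintro (h2 | h2) <;> omega
      · simp [h]
    have h2 := Comp.iUnion_range n h1
    have h3 := (ih (by omega)).trans h2.keep
    refine h3.sub ?_ (by rw [Nat.succ_mul]) le_rfl
    rintro f (⟨k, rfl⟩ | hf)
    · by_cases hk : k = 0
      · right; right
        refine Or.inr ⟨true, ?_⟩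
        funext x
        simp [hk]
      · by_cases hk' : k - 1 < n
        · left
          refine ⟨k - 1, hk', ?_⟩
          have : k - 1 + 1 = k := by omega
          simp only [this]
          rfl
        · right; right
          refine Or.inr ⟨false, ?_⟩
          funext x
          have := pw_le (j + 1) x
          simp only [decide_eq_false_iff_not]
          omega
    · exact Or.inr (Or.inr hf)

theorem comp_thr : Comp (base n) (2 * n ^ 2) 0
    ({f | ∃ k, f = fun x => decide (k ≤ wt x)} ∪ base n) := by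
  refine (comp_pw n le_rfl).sub ?_ (by nlinarith) le_rfl
  refine Set.union_subset_union_left _ ?_
  rintro f ⟨k, rfl⟩
  exact ⟨k, by funext x; rw [pw_n]⟩

/-! ### Removing a one -/

/-- Set the `i`-th bit to zero. -/
def er (i : Fin n) (x : Fin n → Bool) : Fin n → Bool := Function.update x i false

theorem er_le (i : Fin n) (x : Fin n → Bool) : er i x ≤ x := by
  intro j
  unfold er
  by_cases h : j = i
  · subst h; simp
  · simp [h]

theorem er_eq {i : Fin n} {x : Fin n → Bool} (h : x i = false) : er i x = x := by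
  unfold er
  rw [← h]
  exact Function.update_eq_self i x

theorem wt_er {i : Fin n} {x : Fin n → Bool} (h : x i = true) : wt (er i x) + 1 = wt x := by
  unfold wt er
  have h1 : (Finset.univ.filter fun j => Function.update x i false j = true) =
      (Finset.univ.filter fun j => x j = true).erase i := by
    ext j
    simp only [Finset.mem_filter, Finset.mem_univ, true_and, Finset.mem_erase]
    by_cases hj : j = i
    · subst hj; simp
    · simp [hj]
  rw [h1, Finset.card_erase_of_mem (by simp [h])]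
  have : 0 < (Finset.univ.filter fun j => x j = true).card :=
    Finset.card_pos.2 ⟨i, by simp [h]⟩
  omega

theorem base_comp_er (i : Fin n) : (fun f => f ∘ er i) '' base n ⊆ base n := by
  rintro f ⟨g, (⟨j, rfl⟩ | ⟨b, rfl⟩), rfl⟩
  · by_cases h : j = i
    · refine Or.inr ⟨false, ?_⟩
      funext x
      simp [er, h]
    · refine Or.inl ⟨j, ?_⟩
      funext x
      simp [er, h]
  · exact Or.inr ⟨b, rfl⟩

/-! ### Approximate complements -/

variable (D : (Fin n → Bool) × (Fin n → Bool) → Bool)

/-- The iterated approximations: `G k 0` is the threshold function, and `G k (d + 1)` is computed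
by the circuit `D` where `G k d`, at the word without its `i`-th one, stands for the negation of
the `i`-th variable. -/
def G (k : ℕ) : ℕ → (Fin n → Bool) → Bool
  | 0 => fun x => decide (k ≤ wt x)
  | d + 1 => fun x => D (x, fun i => G k d (er i x))

variable {D}

theorem G_yes {F : (Fin n → Bool) → Bool} (hD : Monotone D)
    (hF : ∀ x, D (x, fun i => !x i) = F x) (k : ℕ) :
    ∀ (d : ℕ) (x : Fin n → Bool), wt x = k → F x = true → G D k d x = true
  | 0, x, hx, _ => by simp [G, hx]
  | d + 1, x, hx, hx' => by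
    rw [G]
    have h1 : (fun i => !x i) ≤ fun i => G D k d (er i x) := by
      intro i
      by_cases h : x i = true
      · simp [h]
      · have h2 : x i = false := by simpa using h
        have h3 := G_yes hD hF k d x hx hx'
        simp only [er_eq h2, h3]
        exact le_top
    have h2 := hD (show ((x, fun i => !x i) : (Fin n → Bool) × (Fin n → Bool)) ≤
      (x, fun i => G D k d (er i x)) from ⟨le_rfl, h1⟩)
    rw [hF, hx'] at h2
    exact Bool.le_iff_imp.1 h2 rfl

theorem G_no {F : (Fin n → Bool) → Bool} (hD : Monotone D)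
    (hF : ∀ x, D (x, fun i => !x i) = F x) (hmono : Monotone F) (k : ℕ) :
    ∀ (d : ℕ) (x : Fin n → Bool), wt x < k + d → F x = false → G D k d x = false
  | 0, x, hx, _ => by simp [G]; omega
  | d + 1, x, hx, hx' => by
    rw [G]
    have h1 : (fun i => G D k d (er i x)) ≤ fun i => !x i := by
      intro i
      by_cases h : x i = true
      · have h2 := wt_er h
        have h3 : F (er i x) = false := by
          have := hmono (er_le i x)
          rw [hx'] at this
          exact (le_bot_iff (α := Bool)).1 this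
        have h4 := G_no hD hF hmono k d (er i x) (by omega) h3
        simp [h4]
      · have h2 : x i = false := by simpa using h
        simp only [h2, Bool.not_false]
        exact le_top
    have h2 := hD (show ((x, fun i => G D k d (er i x)) : (Fin n → Bool) × (Fin n → Bool)) ≤
      (x, fun i => !x i) from ⟨le_rfl, h1⟩)
    rw [hF, hx'] at h2
    exact (le_bot_iff (α := Bool)).1 h2

/-- The cost of the approximations. -/
theorem comp_G {s : ℕ} (hD : Comp (base2 n) s 0 {D}) : ∀ d : ℕ,
    Comp (base n) ((n + 1) ^ d * (2 * n ^ 2 + (n + 1) * s)) 0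
      ({f | ∃ k ≤ n, f = G D k d} ∪ base n)
  | 0 => by
    refine comp_thr.sub ?_ (by simp) le_rfl
    refine Set.union_subset_union_left _ ?_
    rintro f ⟨k, _, rfl⟩
    exact ⟨k, rfl⟩
  | d + 1 => by
    have ih := comp_G hD d
    set B := 2 * n ^ 2 + (n + 1) * s with hB
    -- all the functions with one bit removed
    have h1 : ∀ i < n, Comp (base n) ((n + 1) ^ d * B) 0
        {f | ∃ h : i < n, ∃ k ≤ n, f = G D k d ∘ er ⟨i, h⟩} := by
      intro i hi
      have h2 := (ih.subst (er ⟨i, hi⟩)).weaken (base_comp_er _)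
      refine h2.sub ?_ le_rfl le_rfl
      rintro f ⟨h, k, hk, rfl⟩
      exact Or.inl ⟨G D k d, Or.inl ⟨k, hk, rfl⟩, rfl⟩
    have h2 := (Comp.iUnion_range n h1).keep
    set S := ({f | ∃ i < n, f ∈ {f | ∃ h : i < n, ∃ k ≤ n, f = G D k d ∘ er ⟨i, h⟩}} ∪ base n)
      with hS
    have h3 : ∀ k < n + 1, Comp S s 0 {G D k (d + 1)} := by
      intro k hk
      have h4 := hD.subst (fun x : Fin n → Bool => (x, fun i => G D k d (er i x)))
      have h5 : (fun f => f ∘ (fun x : Fin n → Bool => (x, fun i => G D k d (er i x)))) ''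
          base2 n ⊆ S := by
        rintro f ⟨g, (⟨i, rfl⟩ | ⟨i, rfl⟩ | ⟨b, rfl⟩), rfl⟩
        · exact Or.inr (var_mem i)
        · exact Or.inl ⟨i.1, i.2, i.2, k, by omega, rfl⟩
        · exact Or.inr (const_mem b)
      refine (h4.weaken h5).sub ?_ le_rfl le_rfl
      rw [Set.singleton_subset_iff]
      refine Or.inl ⟨D, rfl, ?_⟩
      funext x
      rfl
    have h6 := h2.trans (Comp.iUnion_range (n + 1) h3).keep
    refine h6.sub ?_ ?_ le_rfl
    · rintro f (⟨k, hk, rfl⟩ | hf)
      · exact Or.inl ⟨k, by omega, rfl⟩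
      · exact Or.inr (Or.inr hf)
    · have h7 : 1 ≤ (n + 1) ^ d := Nat.one_le_pow _ _ (by omega)
      have h8 : (n + 1) * s ≤ B := by omega
      calc n * ((n + 1) ^ d * B) + (n + 1) * s ≤ n * ((n + 1) ^ d * B) + (n + 1) ^ d * B := by
            have : (n + 1) * s ≤ (n + 1) ^ d * B := h8.trans (Nat.le_mul_of_pos_left _ (by omega))
            omega
        _ = (n + 1) ^ (d + 1) * B := by ring

/-! ### Selection by a sorted sequence of bits with few NOT gates -/

/-- The selector. -/
def sel {X : Type} : ℕ → (ℕ → X → Bool) → (ℕ → X → Bool) → X → Bool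
  | 0, _, M => M 0
  | t + 1, P, M => sel t (fun i x => ((!P (2 ^ t) x) && P i x) || P (2 ^ t + i) x)
      (fun j x => ((!P (2 ^ t) x) && M j x) || (P (2 ^ t) x && M (2 ^ t + j) x))

theorem sel_eq {X : Type} (x : X) : ∀ (t : ℕ) (P M : ℕ → X → Bool) (j : ℕ), j < 2 ^ t →
    (∀ i < 2 ^ t, P i x = decide (i ≤ j)) → sel t P M x = M j x
  | 0, P, M, j, hj, h => by
    have : j = 0 := by simpa using hj
    rw [this]
    rfl
  | t + 1, P, M, j, hj, h => by
    have h2 : 2 ^ (t + 1) = 2 ^ t + 2 ^ t := by rw [pow_succ]; ring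
    have hpos : 0 < 2 ^ t := by positivity
    rw [sel]
    have hp := h (2 ^ t) (by omega)
    by_cases hc : 2 ^ t ≤ j
    · rw [sel_eq x t _ _ (j - 2 ^ t) (by omega)]
      · have h3 : 2 ^ t + (j - 2 ^ t) = j := by omega
        simp only [hp, hc, decide_true, Bool.not_true, Bool.false_and, Bool.true_and,
          Bool.false_or, h3]
      · intro i hi
        simp only [hp, hc, decide_true, Bool.not_true, Bool.false_and, Bool.false_or]
        rw [h _ (by omega)]
        congr 1
        apply propext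
        omega
    · rw [sel_eq x t _ _ j (by omega)]
      · simp only [hp, hc, decide_false, Bool.not_false, Bool.true_and, Bool.false_and,
          Bool.or_false]
      · intro i hi
        simp only [hp, hc, decide_false, Bool.not_false, Bool.true_and]
        rw [h i (by omega), h _ (by omega)]
        have : ¬ (2 ^ t + i ≤ j) := by omega
        simp [this]

theorem comp_sel {X : Type} : ∀ (t : ℕ) (P M : ℕ → X → Bool) (S : Set (X → Bool)),
    (∀ i < 2 ^ t, P i ∈ S) → (∀ j < 2 ^ t, M j ∈ S) → Comp S (5 * 2 ^ t) t {sel t P M}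
  | 0, P, M, S, _, hM => by
    refine (Comp.refl).sub ?_ (by simp) le_rfl
    rw [Set.singleton_subset_iff]
    exact hM 0 (by simp)
  | t + 1, P, M, S, hP, hM => by
    have h2 : 2 ^ (t + 1) = 2 ^ t + 2 ^ t := by rw [pow_succ]; ring
    have hpos : 0 < 2 ^ t := by positivity
    set S' := insert (fun x => !P (2 ^ t) x) S with hS'
    have h1 : Comp S 0 1 S' := (Comp.refl).not (hP (2 ^ t) (by omega))
    have hq : (fun x => !P (2 ^ t) x) ∈ S' := Set.mem_insert _ _
    have hp : P (2 ^ t) ∈ S' := Set.mem_insert_of_mem _ (hP _ (by omega))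
    have h3 : ∀ i < 2 ^ t, Comp S' 2 0
        {fun x => ((!P (2 ^ t) x) && P i x) || P (2 ^ t + i) x} := by
      intro i hi
      refine (((Comp.refl (S := S')).and hq (Set.mem_insert_of_mem _ (hP i (by omega)))).or
        (Set.mem_insert _ _) (Set.mem_insert_of_mem _ (Set.mem_insert_of_mem _
          (hP (2 ^ t + i) (by omega))))).sub ?_ le_rfl le_rfl
      rw [Set.singleton_subset_iff]
      exact Set.mem_insert _ _
    have h4 : ∀ j < 2 ^ t, Comp S' 3 0
        {fun x => ((!P (2 ^ t) x) && M j x) || (P (2 ^ t) x && M (2 ^ t + j) x)} := by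
      intro i hi
      refine ((((Comp.refl (S := S')).and hq (Set.mem_insert_of_mem _ (hM i (by omega)))).and
        (Set.mem_insert_of_mem _ hp) (Set.mem_insert_of_mem _ (Set.mem_insert_of_mem _
          (hM (2 ^ t + i) (by omega))))).or (Set.mem_insert_of_mem _ (Set.mem_insert _ _))
          (Set.mem_insert _ _)).sub ?_ le_rfl le_rfl
      rw [Set.singleton_subset_iff]
      exact Set.mem_insert _ _
    have h5 := (Comp.iUnion_range (2 ^ t) h3).union (Comp.iUnion_range (2 ^ t) h4)
    have h6 := h1.trans h5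
    have h7 := h6.trans (comp_sel t
      (fun i x => ((!P (2 ^ t) x) && P i x) || P (2 ^ t + i) x)
      (fun j x => ((!P (2 ^ t) x) && M j x) || (P (2 ^ t) x && M (2 ^ t + j) x)) _
      (fun i hi => Or.inl ⟨i, hi, rfl⟩) (fun j hj => Or.inr ⟨j, hj, rfl⟩))
    refine h7.sub ?_ (by rw [h2]; ring_nf; omega) (by omega)
    rfl

/-! ### The trade-off -/

/-- A monotone function computed with `s` AND/OR gates and any number of NOT gates is computed with
`t` NOT gates and `s * n ^ O(m)` AND/OR gates, if `2 ^ t * m > n`. -/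
theorem few_nots {F : (Fin n → Bool) → Bool} (hmono : Monotone F) {s b m t : ℕ}
    (hF : Comp (base n) s b {F}) (hm : 0 < m) (ht : n < 2 ^ t * m) :
    Comp (base n) (2 * n ^ 2 + (n + 1) ^ m * (2 * n ^ 2 + (n + 1) * (2 * s)) + 2 ^ t * m +
      5 * 2 ^ t) t {F} := by
  obtain ⟨T', hT', h⟩ := doubling hF rfl
  obtain ⟨⟨D, hD, hDF⟩, _⟩ := h F rfl
  have hD1 : Comp (base2 n) (2 * s) 0 {D} :=
    hT'.sub (Set.singleton_subset_iff.2 hD) le_rfl le_rfl
  have hD2 : Monotone D := hD1.monotone rfl monotone_base2 D rfl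
  have h1 := comp_G hD1 m
  have h2 := comp_thr (n := n)
  have h3 := h2.union h1
  set S := (({f | ∃ k, f = fun x => decide (k ≤ wt x)} ∪ base n) ∪
    ({f | ∃ k ≤ n, f = G D k m} ∪ base n)) with hS
  set M : ℕ → (Fin n → Bool) → Bool := fun j x =>
    decide (∃ k < m, G D (min (j * m + k) n) m x = true) with hM
  set P : ℕ → (Fin n → Bool) → Bool := fun i x => decide (i * m ≤ wt x) with hP
  have h4 : ∀ j < 2 ^ t, Comp S m 0 {M j} := by
    intro j _
    refine (Comp.bigOr (S := S) m (fun k => G D (min (j * m + k) n) m)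
      (fun k _ => Or.inr (Or.inl ⟨_, min_le_right _ _, rfl⟩))
      (Or.inl (Or.inr (const_mem false)))).sub ?_ le_rfl le_rfl
    rw [Set.singleton_subset_iff]
    exact Set.mem_insert _ _
  have h5 := (h3.trans (Comp.iUnion_range (2 ^ t) h4).keep).trans
    (comp_sel t P M _ (fun i _ => Or.inr (Or.inl (Or.inl ⟨i * m, rfl⟩)))
      (fun j hj => Or.inl ⟨j, hj, rfl⟩))
  refine h5.sub ?_ le_rfl (by omega)
  rw [Set.singleton_subset_iff, Set.mem_singleton_iff]
  funext x
  have hw := wt_le x
  have hj : wt x / m < 2 ^ t := Nat.div_lt_of_lt_mul (by rw [mul_comm]; omega)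
  rw [sel_eq x t P M (wt x / m) hj]
  · rw [Bool.eq_iff_iff, hM]
    simp only [decide_eq_true_eq]
    have hdm := Nat.div_add_mod (wt x) m
    have hml := Nat.mod_lt (wt x) hm
    rw [mul_comm] at hdm
    constructor
    · intro hx
      refine ⟨wt x % m, hml, ?_⟩
      rw [hdm, min_eq_left hw]
      exact G_yes hD2 hDF _ m x rfl hx
    · rintro ⟨k, hk, hG⟩
      by_contra hx
      have hx' : F x = false := by simpa using hx
      rw [G_no hD2 hDF hmono _ m x ?_ hx'] at hG
      · exact absurd hG (by simp)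
      · rcases min_choice (wt x / m * m + k) n with h6 | h6 <;> rw [h6] <;> omega
  · intro i hi
    rw [Bool.eq_iff_iff]
    simp only [hP, decide_eq_true_eq]
    exact (Nat.le_div_iff_mul_le hm).symm

end Pool.Agent.H547R2.Mag
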