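import Pool.Agent.H547R2.Mag2
import Pool.Agent.H578R2.Med.NPClos
import Pool.Agent.H611R2.RawNP

/-!
# Languages: polynomial-size circuits with few NOT gates
-/

namespace Pool.Agent.H547R2.Mag

open Pool.Agent.NPC

/-- The circuit `C` decides the language `L` on the words of length `n`. -/
def Decides (C : Circ) (n : ℕ) (L : Set (List Bool)) : Prop :=
  ∀ w : List Bool, w.length = n → (C.eval w = true ↔ w ∈ L)

/-- `P/poly`: languages with circuits of polynomial size. -/
def PPoly (L : Set (List Bool)) : Prop :=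
  ∃ k : ℕ, 1 ≤ k ∧ ∀ n : ℕ, ∃ C : Circ, Decides C n L ∧ C.size ≤ n ^ k + k

/-- Languages with circuits of polynomial size with at most `t n` NOT gates for words of length
`n`. -/
def PPolyNot (t : ℕ → ℕ) (L : Set (List Bool)) : Prop :=
  ∃ k : ℕ, 1 ≤ k ∧ ∀ n : ℕ, ∃ C : Circ, Decides C n L ∧ C.size ≤ n ^ k + k ∧ C.nots ≤ t n

/-- Monotone languages: changing zeros into ones does not lead out of the language. -/
def MonoLang (L : Set (List Bool)) : Prop :=
  ∀ (n : ℕ) (x y : Fin n → Bool), x ≤ y → List.ofFn x ∈ L → List.ofFn y ∈ L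

theorem eq_ofFn {n : ℕ} {w : List Bool} (hw : w.length = n) :
    w = List.ofFn (fun i : Fin n => w.getD i false) := by
  subst hw
  apply List.ext_getElem
  · simp
  · intro i h1 h2
    simp only [List.getElem_ofFn]
    rw [List.getD_eq_getElem _ _ h1]

theorem pow_bound (E : ℕ) : ∃ K : ℕ, 1 ≤ K ∧ ∀ n : ℕ, (n + 2) ^ E ≤ n ^ K + K := by
  obtain ⟨B, hB⟩ : ∃ B, B = 3 ^ E := ⟨_, rfl⟩
  have hB1 : 1 ≤ B := hB ▸ Nat.one_le_pow _ _ (by norm_num)
  refine ⟨2 * E + B, by omega, fun n => ?_⟩
  rcases Nat.lt_or_ge n 2 with h | h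
  · have h1 : (n + 2) ^ E ≤ B := hB ▸ Nat.pow_le_pow_left (by omega) E
    omega
  · have h1 : (n + 2) ^ E ≤ (n ^ 2) ^ E := Nat.pow_le_pow_left (by nlinarith) E
    rw [← pow_mul] at h1
    have h2 : n ^ (2 * E) ≤ n ^ (2 * E + B) := Nat.pow_le_pow_right (by omega) (by omega)
    omega

theorem two_pow_clog_le (n : ℕ) : 2 ^ Nat.clog 2 (n + 1) ≤ 2 * (n + 1) := by
  rcases Nat.eq_zero_or_pos n with rfl | hn
  · simp
  · have h := Nat.pow_pred_clog_lt_self (b := 2) (by norm_num) (x := n + 1) (by omega)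
    have h1 : 0 < Nat.clog 2 (n + 1) := Nat.clog_pos (by norm_num) (by omega)
    have h2 : Nat.clog 2 (n + 1) = (Nat.clog 2 (n + 1)).pred + 1 :=
      (Nat.succ_pred_eq_of_pos h1).symm
    rw [h2, pow_succ]
    omega

/-- A monotone language with polynomial-size circuits has polynomial-size circuits with few NOT
gates. -/
theorem ppolyNot_of_ppoly (c : ℕ) {L : Set (List Bool)} (hm : MonoLang L) (hL : PPoly L) :
    PPolyNot (fun n => Nat.clog 2 (n + 1) - c) L := by
  obtain ⟨k, hk, h⟩ := hL
  obtain ⟨E, hE⟩ : ∃ E, E = 2 ^ c := ⟨_, rfl⟩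
  obtain ⟨K, hK, hK'⟩ := pow_bound (E + k + c + 11)
  refine ⟨K, hK, fun n => ?_⟩
  obtain ⟨C, hC, hs⟩ := h n
  have hmono : Monotone (fun x : Fin n → Bool => C.eval (List.ofFn x)) := by
    intro x y hxy
    refine Bool.le_iff_imp.2 fun h1 => ?_
    exact (hC _ (by simp)).2 (hm n x y hxy ((hC _ (by simp)).1 h1))
  have hcl : 2 ^ Nat.clog 2 (n + 1) ≤ 2 * (n + 1) := two_pow_clog_le n
  have ht : n < 2 ^ (Nat.clog 2 (n + 1) - c) * 2 ^ c := by
    rw [← pow_add]
    have h1 : n + 1 ≤ 2 ^ Nat.clog 2 (n + 1) := Nat.le_pow_clog (by norm_num) _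
    have h2 : 2 ^ Nat.clog 2 (n + 1) ≤ 2 ^ (Nat.clog 2 (n + 1) - c + c) :=
      Nat.pow_le_pow_right (by norm_num) (by omega)
    omega
  have h1 := few_nots hmono (C.comp n) (m := 2 ^ c) (t := Nat.clog 2 (n + 1) - c) (by positivity) ht
  obtain ⟨C', hC1, hC2, hC3⟩ := h1.exists_circ
  rw [← hE] at hC1
  refine ⟨C', ?_, hC1.trans ((?_ : _ ≤ (n + 2) ^ (E + k + c + 11)).trans (hK' n)), hC2⟩
  · intro w hw
    rw [eq_ofFn hw, hC3]
    exact hC _ (by simp)
  · set N := n + 2 with hN
    have hN2 : 2 ≤ N := by omega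
    have ht' : 2 ^ (Nat.clog 2 (n + 1) - c) ≤ 2 * N := by
      have : 2 ^ (Nat.clog 2 (n + 1) - c) ≤ 2 ^ Nat.clog 2 (n + 1) :=
        Nat.pow_le_pow_right (by norm_num) (by omega)
      omega
    have e1 : 2 * n ^ 2 ≤ N ^ 3 := by
      have h2 : n ^ 2 ≤ N ^ 2 := Nat.pow_le_pow_left (by omega) 2
      calc 2 * n ^ 2 ≤ N * N ^ 2 := Nat.mul_le_mul hN2 h2
        _ = N ^ 3 := by ring
    have e2 : (n + 1) ^ E ≤ N ^ E := Nat.pow_le_pow_left (by omega) _
    have e3 : C.size ≤ N ^ (k + 1) := by
      have h2 : n ^ k ≤ N ^ k := Nat.pow_le_pow_left (by omega) k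
      have h3 : k < 2 ^ k := Nat.lt_two_pow_self
      have h4 : 2 ^ k ≤ N ^ k := Nat.pow_le_pow_left hN2 k
      calc C.size ≤ 2 * N ^ k := by omega
        _ ≤ N * N ^ k := Nat.mul_le_mul_right _ hN2
        _ = N ^ (k + 1) := by ring
    have e4 : (n + 1) * (2 * C.size) ≤ N ^ (k + 3) := by
      calc (n + 1) * (2 * C.size) ≤ N * (N * N ^ (k + 1)) :=
            Nat.mul_le_mul (by omega) (Nat.mul_le_mul hN2 e3)
        _ = N ^ (k + 3) := by ring
    have e5 : 2 * n ^ 2 + (n + 1) * (2 * C.size) ≤ N ^ (k + 4) := by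
      have h2 : N ^ 3 ≤ N ^ (k + 3) := Nat.pow_le_pow_right (by omega) (by omega)
      calc 2 * n ^ 2 + (n + 1) * (2 * C.size) ≤ 2 * N ^ (k + 3) := by omega
        _ ≤ N * N ^ (k + 3) := Nat.mul_le_mul_right _ hN2
        _ = N ^ (k + 4) := by ring
    have e6 : (n + 1) ^ E * (2 * n ^ 2 + (n + 1) * (2 * C.size)) ≤
        N ^ (E + k + c + 9) := by
      calc _ ≤ N ^ E * N ^ (k + 4) := Nat.mul_le_mul e2 e5
        _ = N ^ (E + k + 4) := by ring
        _ ≤ _ := Nat.pow_le_pow_right (by omega) (by omega)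
    have e7 : 2 ^ (Nat.clog 2 (n + 1) - c) * E ≤ N ^ (E + k + c + 9) := by
      have h2 : E ≤ N ^ c := hE ▸ Nat.pow_le_pow_left hN2 c
      calc _ ≤ (N * N) * N ^ c := Nat.mul_le_mul (ht'.trans (Nat.mul_le_mul_right _ hN2)) h2
        _ = N ^ (c + 2) := by ring
        _ ≤ _ := Nat.pow_le_pow_right (by omega) (by omega)
    have e8 : 5 * 2 ^ (Nat.clog 2 (n + 1) - c) ≤ N ^ (E + k + c + 9) := by
      have h2 : 16 ≤ N ^ 4 := by
        calc 16 = 2 ^ 4 := by norm_num
          _ ≤ N ^ 4 := Nat.pow_le_pow_left hN2 4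
      calc _ ≤ 16 * N := by omega
        _ ≤ N ^ 4 * N := Nat.mul_le_mul_right _ h2
        _ = N ^ 5 := by ring
        _ ≤ _ := Nat.pow_le_pow_right (by omega) (by omega)
    have e9 : N ^ 3 ≤ N ^ (E + k + c + 9) := Nat.pow_le_pow_right (by omega) (by omega)
    have e10 : 4 * N ^ (E + k + c + 9) ≤ N ^ (E + k + c + 11) := by
      calc 4 * N ^ (E + k + c + 9) ≤ (N * N) * N ^ (E + k + c + 9) :=
            Nat.mul_le_mul_right _ (by nlinarith)
        _ = N ^ (E + k + c + 11) := by ring
    omega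

/-! ### The dual-rail language -/

/-- The words of even length such that some word of the language is compatible with them: the
pair of bits at positions `2 i`, `2 i + 1` allows the values of the `i`-th bit. -/
def dual (L : Set (List Bool)) : Set (List Bool) :=
  {u | ∃ z ∈ L, u.length = 2 * z.length ∧
    ∀ i < z.length, u.getD (2 * i + (z.getD i false).toNat) false = true}

theorem monoLang_dual (L : Set (List Bool)) : MonoLang (dual L) := by
  rintro n x y hxy ⟨z, hz, hl, h⟩
  refine ⟨z, hz, by simpa using hl, fun i hi => ?_⟩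
  have h1 := h i hi
  rw [List.length_ofFn] at hl
  have h2 : 2 * i + (z.getD i false).toNat < n := by
    cases z.getD i false <;> simp <;> omega
  have h3 := getD_ofFn' x ⟨_, h2⟩
  have h4 := getD_ofFn' y ⟨_, h2⟩
  simp only at h3 h4
  rw [h3] at h1
  rw [h4]
  exact Bool.le_iff_imp.1 (hxy ⟨_, h2⟩) h1

theorem inNP_dual {L : Set (List Bool)} (hL : InNP L) : InNP (dual L) := by
  obtain ⟨V, p, hV, hL'⟩ := hL
  have hV' : Poly V := Med.poly_of_polyTime hV
  have hu : Poly (fun a : List Bool × List Bool => a.1) := Poly.fst Poly.id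
  have hz : Poly (fun a : List Bool × List Bool => (H611R2.unpair a.2).1) :=
    Poly.fst (H611R2.unpair_poly.comp (Poly.snd Poly.id))
  have hy : Poly (fun a : List Bool × List Bool => (H611R2.unpair a.2).2) :=
    Poly.snd (H611R2.unpair_poly.comp (Poly.snd Poly.id))
  refine H611R2.inNP_of_poly (fun a =>
    decide (a.1.length = 2 * (H611R2.unpair a.2).1.length) &&
    ((List.range (H611R2.unpair a.2).1.length).all (fun i =>
      a.1.getD (2 * i + (if (H611R2.unpair a.2).1.getD i false = true then 1 else 0)) false) &&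
    (decide ((H611R2.unpair a.2).2.length ≤ p.eval (H611R2.unpair a.2).1.length) &&
    decide (V (pairBits (H611R2.unpair a.2).1 (H611R2.unpair a.2).2) = [true])))) ?_
    (Polynomial.X + p + 1) ?_
  · refine Poly.and (Poly.decide_eq (Poly.length hu) (Poly.mul (NPC.Poly.const 2) (Poly.length hz)))
      (Poly.and ?_ (Poly.and (Poly.decide_le (Poly.length hy)
        (UPoly.eval (UPoly.length hz) p).toPoly)
        (Poly.decide_eq (hV'.comp (Med.poly_pairBits hz hy)) (NPC.Poly.const ([true] : List Bool)))))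
    refine Poly.all (UPoly.length hz).range ?_
    have hi : Poly (fun r : (List Bool × List Bool) × ℕ => r.2) := Poly.snd Poly.id
    have hz' : Poly (fun r : (List Bool × List Bool) × ℕ => (H611R2.unpair r.1.2).1) :=
      hz.comp (Poly.fst Poly.id)
    exact Poly.getD (hu.comp (Poly.fst Poly.id)) (Poly.add (Poly.mul (NPC.Poly.const 2) hi)
      (Poly.ite (Poly.decide_eq (Poly.getD hz' hi (NPC.Poly.const false)) (NPC.Poly.const true))
        (NPC.Poly.const 1) (NPC.Poly.const 0))) (NPC.Poly.const false)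
  · intro u
    constructor
    · rintro ⟨z, hz, hl, h⟩
      obtain ⟨y, hy1, hy2⟩ := (hL' z).1 hz
      refine ⟨pairBits z y, ?_, ?_⟩
      · have h1 : (pairBits z y).length = 2 * z.length + 1 + y.length := by
          unfold pairBits
          rw [List.length_append, List.length_flatMap, List.length_cons]
          simp
          ring
        have h2 : p.eval z.length ≤ p.eval u.length := eval_mono p (by omega)
        simp only [Polynomial.eval_add, Polynomial.eval_X, Polynomial.eval_one]
        omega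
      · simp only [H611R2.unpair_pairBits, Bool.and_eq_true, decide_eq_true_eq, List.all_eq_true,
          List.mem_range]
        refine ⟨hl, fun i hi => ?_, hy1, hy2⟩
        have := h i hi
        cases hb : z.getD i false
        · rw [hb] at this
          rw [if_neg (by simp)]
          exact this
        · rw [hb] at this
          rw [if_pos rfl]
          exact this
    · rintro ⟨w, _, h⟩
      simp only [Bool.and_eq_true, decide_eq_true_eq, List.all_eq_true, List.mem_range] at h
      obtain ⟨h1, h2, h3, h4⟩ := h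
      refine ⟨_, (hL' _).2 ⟨_, h3, h4⟩, h1, fun i hi => ?_⟩
      have := h2 i hi
      cases hb : (H611R2.unpair w).1.getD i false
      · rw [hb, if_neg (by simp)] at this
        exact this
      · rw [hb, if_pos rfl] at this
        exact this

/-- The dual-rail code of a word. -/
def rail {n : ℕ} (x : Fin n → Bool) : List Bool :=
  List.ofFn (fun j : Fin (2 * n) => if j.1 % 2 = 0 then !x ⟨j.1 / 2, by omega⟩ else
    x ⟨j.1 / 2, by omega⟩)

theorem rail_mem {L : Set (List Bool)} {n : ℕ} (x : Fin n → Bool) :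
    rail x ∈ dual L ↔ List.ofFn x ∈ L := by
  have hget : ∀ (i : Fin n) (b : Bool), (rail x).getD (2 * i.1 + b.toNat) false =
      (if b = true then x i else !x i) := by
    intro i b
    have h1 : 2 * i.1 + b.toNat < 2 * n := by
      have := i.2
      cases b <;> simp only [Bool.toNat_false, Bool.toNat_true] <;> omega
    have h2 := getD_ofFn' (fun j : Fin (2 * n) => if j.1 % 2 = 0 then !x ⟨j.1 / 2, by omega⟩ else
      x ⟨j.1 / 2, by omega⟩) ⟨_, h1⟩
    unfold rail
    simp only at h2
    rw [h2]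
    cases b with
    | false =>
      have h3 : (⟨(2 * i.1 + false.toNat) / 2, by omega⟩ : Fin n) = i := by
        apply Fin.ext; simp
      have h4 : (2 * i.1 + false.toNat) % 2 = 0 := by simp
      rw [if_pos h4, h3]
      simp
    | true =>
      have h3 : (⟨(2 * i.1 + true.toNat) / 2, by omega⟩ : Fin n) = i := by
        apply Fin.ext; simp; omega
      have h4 : ¬ (2 * i.1 + true.toNat) % 2 = 0 := by simp
      rw [if_neg h4, h3]
      simp
  constructor
  · rintro ⟨z, hz, hl, h⟩
    have hl' : z.length = n := by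
      unfold rail at hl
      rw [List.length_ofFn] at hl
      omega
    have : z = List.ofFn x := by
      rw [eq_ofFn hl']
      congr 1
      funext i
      have h1 := h i.1 (by omega)
      rw [hget] at h1
      cases hb : z.getD i.1 false
      · rw [hb, if_neg (by simp)] at h1
        simpa using h1.symm
      · rw [hb, if_pos rfl] at h1
        exact h1.symm
    rwa [← this]
  · intro h
    refine ⟨_, h, by simp [rail], fun i hi => ?_⟩
    rw [List.length_ofFn] at hi
    have h1 := getD_ofFn' x ⟨i, hi⟩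
    simp only at h1
    rw [h1, hget ⟨i, hi⟩]
    cases x ⟨i, hi⟩ <;> simp

/-- If the dual-rail language has polynomial-size circuits, so has the language. -/
theorem ppoly_of_dual {L : Set (List Bool)} (h : PPoly (dual L)) : PPoly L := by
  obtain ⟨k, hk, h⟩ := h
  obtain ⟨B, hB⟩ : ∃ B, B = 2 ^ k := ⟨_, rfl⟩
  refine ⟨2 * k + B + k, by omega, fun n => ?_⟩
  obtain ⟨C, hC, hs⟩ := h (2 * n)
  set S : Set ((Fin n → Bool) → Bool) := {f | ∃ i < n, ∃ h : i < n, f = fun x => !x ⟨i, h⟩} ∪
    base n with hS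
  have h1 : ∀ m ≤ n, Comp (base n) 0 m
      ({f | ∃ i < m, ∃ h : i < n, f = fun x => !x ⟨i, h⟩} ∪ base n) := by
    intro m
    induction m with
    | zero =>
      intro _
      refine (Comp.refl).sub (Set.union_subset ?_ subset_rfl) le_rfl le_rfl
      rintro f ⟨i, hi, _⟩
      omega
    | succ m ih =>
      intro hm
      refine ((ih (by omega)).not (Or.inr (var_mem ⟨m, by omega⟩))).sub ?_ le_rfl le_rfl
      rintro f (⟨i, hi, h, rfl⟩ | hf)
      · by_cases him : i = m
        · subst him
          exact Set.mem_insert _ _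
        · exact Set.mem_insert_of_mem _ (Or.inl ⟨i, by omega, h, rfl⟩)
      · exact Set.mem_insert_of_mem _ (Or.inr hf)
  have h2 := comp_of_list S (fun b => Or.inr (const_mem b)) (fun x => rail x) (fun i => ?_)
    C.nodes
  · have h3 := (h1 n le_rfl).trans h2
    have h4 : Comp (base n) C.size (n + C.nots) {fun x => C.eval (rail x)} := by
      refine h3.sub ?_ (by rw [Circ.size]; omega) le_rfl
      rw [Set.singleton_subset_iff]
      exact Or.inr ⟨C.output, rfl⟩
    obtain ⟨C', hC1, hC2, hC3⟩ := h4.exists_circ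
    refine ⟨C', ?_, ?_⟩
    · intro w hw
      rw [eq_ofFn hw, hC3, hC _ (by simp [rail]), rail_mem]
    · have h5 : (2 * n) ^ k + k ≤ n ^ (2 * k + B + k) + (2 * k + B + k) := by
        rcases Nat.lt_or_ge n 2 with hn | hn
        · have : (2 * n) ^ k ≤ B := hB ▸ Nat.pow_le_pow_left (by omega) k
          omega
        · have h6 : (2 * n) ^ k ≤ (n ^ 2) ^ k := Nat.pow_le_pow_left (by nlinarith) k
          rw [← pow_mul] at h6
          have h7 : n ^ (2 * k) ≤ n ^ (2 * k + B + k) :=
            Nat.pow_le_pow_right (by omega) (by omega)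
          omega
      omega
  · by_cases hi : i < 2 * n
    · have h3 : ∀ x : Fin n → Bool, (rail x).getD i false =
          if i % 2 = 0 then !x ⟨i / 2, by omega⟩ else x ⟨i / 2, by omega⟩ := fun x =>
        getD_ofFn' (fun j : Fin (2 * n) => if j.1 % 2 = 0 then !x ⟨j.1 / 2, by omega⟩ else
          x ⟨j.1 / 2, by omega⟩) ⟨i, hi⟩
      simp only [h3]
      by_cases h4 : i % 2 = 0
      · simp only [h4, if_true]
        exact Or.inl ⟨i / 2, by omega, by omega, rfl⟩
      · simp only [h4, if_false]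
        exact Or.inr (var_mem _)
    · have : (fun x : Fin n → Bool => (rail x).getD i false) = fun _ => false := by
        funext x
        rw [List.getD_eq_default]
        simp [rail]; omega
      rw [this]
      exact Or.inr (const_mem _)

/-- **Threshold for the number of NOT gates.** -/
theorem np_iff (c : ℕ) : (∀ L : Set (List Bool), InNP L → PPoly L) ↔
    ∀ L : Set (List Bool), InNP L → MonoLang L →
      PPolyNot (fun n => Nat.clog 2 (n + 1) - c) L := by
  constructor
  · intro h L hL hm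
    exact ppolyNot_of_ppoly c hm (h L hL)
  · intro h L hL
    obtain ⟨k, hk, h1⟩ := h _ (inNP_dual hL) (monoLang_dual L)
    exact ppoly_of_dual ⟨k, hk, fun n => let ⟨C, hC, hs, _⟩ := h1 n; ⟨C, hC, hs⟩⟩

end Pool.Agent.H547R2.Mag
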