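import Mathlib

/-!
# Many clique instances inside one CNF

A CNF is given by its literal occurrences: `inc c p s` says that the literal of the variable `p`
with sign `s` occurs in the clause `c`. There are `ga` groups of clauses and `gb` selector
variables; each pair of a clause group and a selector variable carries a `k`-clique instance on `v`
vertices, through the occurrences of the selector variable in the clauses of the group.
-/

namespace Pool.Agent.H547R2.SatEmb

/-- Satisfiability of a CNF given by its literal occurrences. -/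
def Sat {Cl Va : Type} (inc : Cl → Va → Bool → Prop) : Prop :=
  ∃ τ : Va → Bool, ∀ c, ∃ p, inc c p (τ p)

/-- Variables: `a I` (clause group `I` is enforced), `b J` (selector), `z J` (some selector up to
`J` is on), `y (i, u)` (the `i`-th vertex of the clique is `u`). -/
inductive Va (ga gb k v : ℕ) : Type
  | a (I : Fin ga)
  | b (J : Fin gb)
  | z (J : Fin gb)
  | y (i : Fin k) (u : Fin v)
  deriving DecidableEq

/-- Clauses. -/
inductive Cl (ga gb k v : ℕ) : Type
  | u : Cl ga gb k v
  | l0 (J : Fin gb)
  | l1 (J : Fin gb)
  | l2 (J : Fin gb)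
  | s (i : Fin k)
  | e (I : Fin ga) (i j : Fin k) (u w : Fin v)
  deriving DecidableEq

variable {ga gb k v : ℕ}

/-- The literal occurrences. -/
def inc (y : Fin ga × Fin gb → SimpleGraph (Fin v)) : Cl ga gb k v → Va ga gb k v → Bool → Prop
  -- some clause group is enforced
  | .u, .a _, s => s = true
  -- b J → z J
  | .l0 J, .b J', s => J' = J ∧ s = false
  | .l0 J, .z J', s => J' = J ∧ s = true
  -- z J → z (J + 1)
  | .l1 J, .z J', s => (J' = J ∧ s = false) ∨ (J'.val = J.val + 1 ∧ s = true) ∨
      (J.val + 1 = gb ∧ J' = J)
  -- z J → ¬ b (J + 1)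
  | .l2 J, .z J', s => (J' = J ∧ s = false) ∨ (J.val + 1 = gb ∧ J' = J)
  | .l2 J, .b J', s => J'.val = J.val + 1 ∧ s = false
  -- some vertex is the i-th vertex
  | .s i, .y i' _, s => i' = i ∧ s = true
  -- the clauses of the group I
  | .e I i j _ _, .a I', s => I' = I ∧ (s = false ∨ i = j)
  | .e _ i j u w, .y i' u', s => s = false ∧ ((i' = i ∧ u' = u) ∨ (i' = j ∧ u' = w))
  | .e I _ _ u w, .b J, s => s = true ∧ (y (I, J)).Adj u w
  | _, _, _ => False

theorem inc_mono {y y' : Fin ga × Fin gb → SimpleGraph (Fin v)} (h : y ≤ y')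
    (c : Cl ga gb k v) (p : Va ga gb k v) (s : Bool) (hi : inc y c p s) : inc y' c p s := by
  cases c <;> cases p <;> simp only [inc] at hi ⊢ <;> first | exact hi | exact ⟨hi.1, h _ hi.2⟩

theorem inc_base (y : Fin ga × Fin gb → SimpleGraph (Fin v)) (J : Fin ga × Fin gb)
    (c : Cl ga gb k v) (p : Va ga gb k v) (s : Bool) :
    (∃ b : Prop, ∀ G, inc (Function.update y J G) c p s ↔ b) ∨
      ∃ s' t : Fin v, ∀ G, inc (Function.update y J G) c p s ↔ G.Adj s' t := by
  by_cases hc : ∃ I i j u w, c = .e I i j u w
  · obtain ⟨I, i, j, u, w, rfl⟩ := hc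
    by_cases hp : ∃ J', p = .b J'
    · obtain ⟨J', rfl⟩ := hp
      by_cases hs : s = true
      · by_cases hJ : (I, J') = J
        · subst hJ
          right
          refine ⟨u, w, fun G => ?_⟩
          simp only [inc, Function.update_self, hs, true_and]
        · left
          refine ⟨(y (I, J')).Adj u w, fun G => ?_⟩
          simp only [inc, Function.update_of_ne hJ, hs, true_and]
      · left
        refine ⟨False, fun G => ?_⟩
        simp [inc, hs]
    · left
      refine ⟨inc y (.e I i j u w) p s, fun G => ?_⟩
      cases p with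
      | b J' => exact absurd ⟨J', rfl⟩ hp
      | a I' => exact Iff.rfl
      | z J' => exact Iff.rfl
      | y i' u' => exact Iff.rfl
  · left
    refine ⟨inc y c p s, fun G => ?_⟩
    cases c with
    | e I i j u w => exact absurd ⟨I, i, j, u, w, rfl⟩ hc
    | u => cases p <;> exact Iff.rfl
    | l0 J => cases p <;> exact Iff.rfl
    | l1 J => cases p <;> exact Iff.rfl
    | l2 J => cases p <;> exact Iff.rfl
    | s i => cases p <;> exact Iff.rfl

/-- At most one selector is on. -/
theorem sel_unique {y : Fin ga × Fin gb → SimpleGraph (Fin v)} {τ : Va ga gb k v → Bool}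
    (h : ∀ c, ∃ p, inc y c p (τ p)) {J K : Fin gb} (hJ : τ (.b J) = true) (hK : τ (.b K) = true) :
    J = K := by
  have key : ∀ J K : Fin gb, τ (.b J) = true → τ (.b K) = true → ¬ J < K := by
    intro J K hJ hK hlt
    have hz : ∀ d : ℕ, ∀ h' : J.val + d < gb, τ (.z ⟨J.val + d, h'⟩) = true := by
      intro d
      induction d with
      | zero =>
        intro h'
        obtain ⟨p, hp⟩ := h (.l0 J)
        cases p with
        | b J' =>
          obtain ⟨rfl, h2⟩ := hp
          rw [hJ] at h2; exact absurd h2 (by simp)
        | z J' =>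
          obtain ⟨rfl, h2⟩ := hp
          exact h2
        | a I => exact hp.elim
        | y i u => exact hp.elim
      | succ d ih =>
        intro h'
        have h1 := ih (by omega)
        obtain ⟨p, hp⟩ := h (.l1 ⟨J.val + d, by omega⟩)
        cases p with
        | z J' =>
          rcases hp with ⟨rfl, h2⟩ | ⟨h2, h3⟩ | ⟨h2, _⟩
          · rw [h1] at h2; exact absurd h2 (by simp)
          · have : J' = ⟨J.val + (d + 1), h'⟩ := Fin.ext (by simp at h2 ⊢; omega)
            rwa [this] at h3
          · simp at h2; omega
        | a I => exact hp.elim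
        | b J' => exact hp.elim
        | y i u => exact hp.elim
    have hlt' : J.val < K.val := hlt
    have hz' := hz (K.val - 1 - J.val) (by omega)
    obtain ⟨p, hp⟩ := h (.l2 ⟨J.val + (K.val - 1 - J.val), by omega⟩)
    cases p with
    | z J' =>
      rcases hp with ⟨rfl, h2⟩ | ⟨h2, _⟩
      · rw [hz'] at h2; exact absurd h2 (by simp)
      · simp at h2; omega
    | b J' =>
      obtain ⟨h2, h3⟩ := hp
      have : J' = K := Fin.ext (by simp at h2; omega)
      rw [this, hK] at h3
      exact absurd h3 (by simp)
    | a I => exact hp.elim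
    | y i u => exact hp.elim
  rcases lt_trichotomy J K with h1 | h1 | h1
  · exact absurd h1 (key J K hJ hK)
  · exact h1
  · exact absurd h1 (key K J hK hJ)

/-- The CNF is satisfiable if and only if one of the instances has a `k`-clique. -/
theorem sat_iff (hk : 2 ≤ k) (y : Fin ga × Fin gb → SimpleGraph (Fin v)) :
    Sat (inc (k := k) y) ↔ ∃ J, ¬ (y J).CliqueFree k := by
  constructor
  · rintro ⟨τ, h⟩
    obtain ⟨p, hp⟩ := h .u
    cases p with
    | b J => exact hp.elim
    | z J => exact hp.elim
    | y i u => exact hp.elim
    | a I =>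
      have hI : τ (.a I) = true := hp
      have hs : ∀ i : Fin k, ∃ u, τ (.y i u) = true := by
        intro i
        obtain ⟨p, hp⟩ := h (.s i)
        cases p with
        | b J => exact hp.elim
        | z J => exact hp.elim
        | a I => exact hp.elim
        | y i' u =>
          obtain ⟨rfl, h2⟩ := hp
          exact ⟨u, h2⟩
      choose u hu using hs
      have he : ∀ i j, i ≠ j → ∃ J, τ (.b J) = true ∧ (y (I, J)).Adj (u i) (u j) := by
        intro i j hij
        obtain ⟨p, hp⟩ := h (.e I i j (u i) (u j))
        cases p with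
        | b J => exact ⟨J, hp.1, hp.2⟩
        | z J => exact hp.elim
        | a I' =>
          obtain ⟨rfl, h2 | h2⟩ := hp
          · rw [hI] at h2; exact absurd h2 (by simp)
          · exact absurd h2 hij
        | y i' u' =>
          obtain ⟨h1, ⟨rfl, rfl⟩ | ⟨rfl, rfl⟩⟩ := hp
          · rw [hu] at h1; exact absurd h1 (by simp)
          · rw [hu] at h1; exact absurd h1 (by simp)
      obtain ⟨J, hJ, _⟩ := he ⟨0, by omega⟩ ⟨1, by omega⟩ (by simp)
      refine ⟨(I, J), ?_⟩
      have hadj : ∀ i j, i ≠ j → (y (I, J)).Adj (u i) (u j) := by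
        intro i j hij
        obtain ⟨J', hJ', hadj⟩ := he i j hij
        rwa [sel_unique h hJ' hJ] at hadj
      have hinj : Function.Injective u := by
        intro i j hij
        by_contra hne
        exact (hadj i j hne).ne hij
      intro hfree
      refine hfree (Finset.univ.map ⟨u, hinj⟩) ?_
      rw [SimpleGraph.isNClique_iff, SimpleGraph.isClique_iff]
      refine ⟨?_, by simp⟩
      intro p hp q hq hpq
      simp only [Finset.coe_map, Function.Embedding.coeFn_mk, Finset.coe_univ, Set.image_univ,
        Set.mem_range] at hp hq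
      obtain ⟨i, rfl⟩ := hp
      obtain ⟨j, rfl⟩ := hq
      exact hadj i j fun h => hpq (by rw [h])
  · rintro ⟨⟨I, J⟩, hJ⟩
    have f := SimpleGraph.topEmbeddingOfNotCliqueFree hJ
    refine ⟨fun p => match p with
      | .a I' => decide (I' = I)
      | .b J' => decide (J' = J)
      | .z J' => decide (J ≤ J')
      | .y i u => decide (f i = u), fun c => ?_⟩
    cases c with
    | u => exact ⟨.a I, by simp [inc]⟩
    | l0 K =>
      by_cases h : K = J
      · exact ⟨.z K, by simp [inc, h]⟩
      · exact ⟨.b K, by simp [inc, h]⟩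
    | l1 K =>
      by_cases h : K.val + 1 = gb
      · exact ⟨.z K, by simp [inc, h]⟩
      · by_cases h1 : J ≤ K
        · refine ⟨.z ⟨K.val + 1, by omega⟩, ?_⟩
          have : J ≤ (⟨K.val + 1, by omega⟩ : Fin gb) := by
            change J.val ≤ K.val + 1
            have : J.val ≤ K.val := h1
            omega
          simp [inc, this]
        · exact ⟨.z K, by simp [inc, h1]⟩
    | l2 K =>
      by_cases h : K.val + 1 = gb
      · exact ⟨.z K, by simp [inc, h]⟩
      · by_cases h1 : J ≤ K
        · refine ⟨.b ⟨K.val + 1, by omega⟩, ?_⟩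
          have : (⟨K.val + 1, by omega⟩ : Fin gb) ≠ J := by
            intro h2
            have h3 : J.val ≤ K.val := h1
            rw [← h2] at h3
            simp at h3
          simp [inc, this]
        · exact ⟨.z K, by simp [inc, h1]⟩
    | s i => exact ⟨.y i (f i), by simp [inc]⟩
    | e I' i j u w =>
      by_cases hij : i = j
      · exact ⟨.a I', by simp [inc, hij]⟩
      · by_cases hI : I' = I
        · by_cases h1 : f i = u
          · by_cases h2 : f j = w
            · refine ⟨.b J, ?_⟩
              have h3 := f.map_adj_iff.2 ((SimpleGraph.top_adj i j).2 hij)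
              simp only [inc, decide_true, true_and, hI, ← h1, ← h2]
              exact h3
            · exact ⟨.y j w, by simp [inc, h2]⟩
          · exact ⟨.y i u, by simp [inc, h1]⟩
        · exact ⟨.a I', by simp [inc, hI]⟩

end Pool.Agent.H547R2.SatEmb
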