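import Pool.Agent.H547R2.Sat1
import Pool.Agent.H520R2.NMChain

/-!
# Chains of unsatisfiable CNFs
-/

namespace Pool.Agent.H547R2.SatEmb

open Pool.Agent.H520R2 Pool.Agent.H520R2.NM

/-- The chain theorem of `Pool.Agent.H520R2.NM.chain_abs`, remembering that all words of the chain
are assembled from graphs. -/
theorem chain_abs' {ι : Type} {m v k n : ℕ} (hk : 4 ≤ k) (hv : 200 * k ^ 4 ≤ v)
    (e : (Fin m → SimpleGraph (Fin v)) → ι → Bool)
    (he_mono : ∀ y y', y ≤ y' → e y ≤ e y')
    (he_base : ∀ (y : Fin m → SimpleGraph (Fin v)) (J : Fin m), ∀ f ∈ VB ι,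
      f ∘ (fun G => e (Function.update y J G)) ∈ GB (Fin v))
    (C : Circuit ι n) (out : Wire ι n)
    (hC : ∀ y, out.eval (e y) (C.vals (e y)) = true ↔ ∃ i, ¬ (y i).CliqueFree k)
    (hsize : C.size + C.fanins.sum < 2 ^ Nat.sqrt k) :
    ∃ x : ℕ → ι → Bool, (∀ i < m, x i ≤ x (i + 1)) ∧
      (∀ i < m, C.probes (x i) ≠ C.probes (x (i + 1))) ∧
      (∀ i ≤ m, out.eval (x i) (C.vals (x i)) = false) ∧ ∀ i, ∃ y, x i = e y := by
  classical
  have hbot : (⊥ : SimpleGraph (Fin v)).CliqueFree k := by
    intro S hS
    rw [SimpleGraph.isNClique_iff] at hS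
    obtain ⟨a, ha, b, hb, hab⟩ := Finset.one_lt_card.mp (show 1 < S.card by omega)
    exact hS.1 ha hb hab
  have hfree : ∀ y : Fin m → SimpleGraph (Fin v), (∀ i, (y i).CliqueFree k) →
      out.eval (e y) (C.vals (e y)) = false := by
    intro y hy
    rw [← Bool.not_eq_true, hC]
    push Not
    exact hy
  have step : ∀ j ≤ m, ∃ (y : Fin m → SimpleGraph (Fin v)) (x : ℕ → ι → Bool),
      (∀ i : Fin m, j ≤ i → y i = ⊥) ∧ (∀ i, (y i).CliqueFree k) ∧ x j = e y ∧
      (∀ i < j, x i ≤ x (i + 1)) ∧ (∀ i < j, C.probes (x i) ≠ C.probes (x (i + 1))) ∧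
      (∀ i ≤ j, out.eval (x i) (C.vals (x i)) = false) ∧ ∀ i, ∃ y, x i = e y := by
    intro j
    induction j with
    | zero =>
      intro _
      refine ⟨fun _ => ⊥, fun _ => e (fun _ => ⊥), fun _ _ => rfl, fun _ => hbot, rfl, by simp,
        by simp, fun i _ => hfree _ (fun _ => hbot), fun _ => ⟨_, rfl⟩⟩
    | succ j ih =>
      intro hj
      obtain ⟨y, x, hy1, hy2, hx0, hx1, hx2, hx3, hx4⟩ := ih (by omega)
      let J : Fin m := ⟨j, hj⟩
      have hyJ : Function.update y J ⊥ = y := by
        rw [← hy1 J le_rfl]
        exact Function.update_eq_self J y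
      have hle : ∀ G, e y ≤ e (Function.update y J G) := by
        intro G
        apply he_mono
        intro i
        by_cases hi : i = J
        · rw [hi, Function.update_self, hy1 J le_rfl]
          exact bot_le
        · rw [Function.update_of_ne hi]
      have hclq : ∀ G : SimpleGraph (Fin v), out.eval (e (Function.update y J G))
          (C.vals (e (Function.update y J G))) = cliqueFn (Fin v) k G := by
        intro G
        rw [Bool.eq_iff_iff, hC]
        simp only [cliqueFn, decide_eq_true_eq]
        constructor
        · rintro ⟨i, hi⟩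
          by_cases hiJ : i = J
          · rw [hiJ, Function.update_self] at hi; exact hi
          · rw [Function.update_of_ne hiJ] at hi; exact absurd (hy2 i) hi
        · intro hG
          exact ⟨J, by rw [Function.update_self]; exact hG⟩
      -- some clique-free graph changes the probes
      have hneg : ∃ G : SimpleGraph (Fin v), G.CliqueFree k ∧
          C.probes (e (Function.update y J G)) ≠ C.probes (e y) := by
        by_contra hno
        push Not at hno
        obtain ⟨g, hg, hgD⟩ := C.flip out (e y) (Set.range (fun G => e (Function.update y J G)))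
          (by rintro _ ⟨G, rfl⟩; exact hle G) (by
            rintro _ ⟨G, rfl⟩ hG
            apply hno
            simp only at hG
            rw [hclq G] at hG
            simpa [cliqueFn] using hG)
        have hcomp := hg.comp (B' := GB (Fin v)) (fun G => e (Function.update y J G))
          (he_base y J)
        have hfun : g ∘ (fun G => e (Function.update y J G)) = cliqueFn (Fin v) k := by
          funext G
          rw [Function.comp, hgD _ ⟨G, rfl⟩]
          exact hclq G
        rw [hfun] at hcomp
        have := clique_mono_lower (by simpa using hv) hcomp hk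
        omega
      obtain ⟨G, hG, hGp⟩ := hneg
      have hy2' : ∀ i, (Function.update y J G i).CliqueFree k := by
        intro i
        by_cases hiJ : i = J
        · rw [hiJ, Function.update_self]; exact hG
        · rw [Function.update_of_ne hiJ]; exact hy2 i
      refine ⟨Function.update y J G,
        fun i => if i ≤ j then x i else e (Function.update y J G), ?_, hy2', ?_, ?_, ?_, ?_, ?_⟩
      · intro i hi
        have hiJ : i ≠ J := by
          intro h
          rw [h] at hi
          simp only [J] at hi
          omega
        rw [Function.update_of_ne hiJ]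
        exact hy1 i (by omega)
      · simp
      · intro i hi
        by_cases hij : i = j
        · subst hij
          simp only [le_refl, if_true]
          rw [if_neg (by omega), hx0]
          exact hle G
        · simp only
          rw [if_pos (by omega), if_pos (by omega)]
          exact hx1 i (by omega)
      · intro i hi
        by_cases hij : i = j
        · subst hij
          simp only [le_refl, if_true]
          rw [if_neg (by omega), hx0]
          exact hGp.symm
        · simp only
          rw [if_pos (by omega), if_pos (by omega)]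
          exact hx2 i (by omega)
      · intro i hi
        by_cases hij : i ≤ j
        · simp only [hij, if_true]
          exact hx3 i hij
        · simp only [hij, if_false]
          exact hfree _ hy2'
      · intro i
        by_cases hij : i ≤ j
        · simp only [hij, if_true]
          exact hx4 i
        · simp only [hij, if_false]
          exact ⟨_, rfl⟩
  obtain ⟨y, x, _, _, _, h1, h2, h3, h4⟩ := step m le_rfl
  exact ⟨x, h1, h2, h3, h4⟩

/-! ### Placing the CNF inside `n` clauses and `n` variables -/

variable {ga gb k v n : ℕ}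

/-- The literal occurrences of the CNF with clauses placed by `f` and variables placed by `h`; the
remaining clauses contain all literals. -/
noncomputable def plc (f : Cl ga gb k v → Fin n) (h : Va ga gb k v → Fin n)
    (y : Fin (ga * gb) → SimpleGraph (Fin v)) (q : Fin n × Fin n × Bool) : Bool :=
  open Classical in
  decide ((∃ c, f c = q.1 ∧ ∃ p, h p = q.2.1 ∧ inc (fun J => y (finProdFinEquiv J)) c p q.2.2) ∨
    ¬ ∃ c, f c = q.1)

/-- Satisfiability of the CNF `x` in `n` variables with `n` clauses: `x (c, p, s)` says that the
clause `c` contains the literal of the variable `p` which is true when `p` has the value `s`. -/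
def SatN (n : ℕ) (x : Fin n × Fin n × Bool → Bool) : Prop :=
  ∃ τ : Fin n → Bool, ∀ c, ∃ p, x (c, p, τ p) = true

theorem plc_mono (f : Cl ga gb k v → Fin n) (h : Va ga gb k v → Fin n)
    (y y' : Fin (ga * gb) → SimpleGraph (Fin v)) (hy : y ≤ y') : plc f h y ≤ plc f h y' := by
  classical
  intro q
  refine Bool.le_iff_imp.2 fun h1 => ?_
  simp only [plc, decide_eq_true_eq] at h1 ⊢
  rcases h1 with ⟨c, hc, p, hp, hi⟩ | h1
  · exact Or.inl ⟨c, hc, p, hp, inc_mono (fun J => hy _) c p _ hi⟩
  · exact Or.inr h1

theorem plc_sat (hk : 2 ≤ k) (f : Cl ga gb k v → Fin n) (hf : Function.Injective f)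
    (h : Va ga gb k v → Fin n) (hh : Function.Injective h)
    (y : Fin (ga * gb) → SimpleGraph (Fin v)) :
    SatN n (plc f h y) ↔ ∃ i, ¬ (y i).CliqueFree k := by
  classical
  have h0 : (∃ i, ¬ (y i).CliqueFree k) ↔ ∃ J, ¬ (y (finProdFinEquiv J)).CliqueFree k := by
    constructor
    · rintro ⟨i, hi⟩
      exact ⟨finProdFinEquiv.symm i, by rw [Equiv.apply_symm_apply]; exact hi⟩
    · rintro ⟨J, hJ⟩
      exact ⟨_, hJ⟩
  rw [h0, ← sat_iff hk (fun J => y (finProdFinEquiv J))]
  constructor
  · rintro ⟨τ, hτ⟩
    refine ⟨fun p => τ (h p), fun c => ?_⟩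
    obtain ⟨p, hp⟩ := hτ (f c)
    simp only [plc, decide_eq_true_eq] at hp
    rcases hp with ⟨c', hc', p', hp', hi⟩ | hp
    · rw [hf hc'] at hi
      refine ⟨p', ?_⟩
      subst hp'
      exact hi
    · exact absurd ⟨c, rfl⟩ hp
  · rintro ⟨τ, hτ⟩
    have hp0 : Nonempty (Va ga gb k v) := by
      obtain ⟨p, _⟩ := hτ .u
      exact ⟨p⟩
    obtain ⟨p0⟩ := hp0
    refine ⟨fun q => if hq : ∃ p, h p = q then τ hq.choose else false, fun c => ?_⟩
    by_cases hc : ∃ c', f c' = c
    · obtain ⟨c', rfl⟩ := hc
      obtain ⟨p, hp⟩ := hτ c'
      refine ⟨h p, ?_⟩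
      have hex : ∃ p', h p' = h p := ⟨p, rfl⟩
      simp only [plc, decide_eq_true_eq]
      left
      refine ⟨c', rfl, p, rfl, ?_⟩
      rw [dif_pos hex, hh hex.choose_spec]
      exact hp
    · refine ⟨h p0, ?_⟩
      simp only [plc, decide_eq_true_eq]
      exact Or.inr hc

theorem plc_base (f : Cl ga gb k v → Fin n) (hf : Function.Injective f)
    (h : Va ga gb k v → Fin n) (hh : Function.Injective h)
    (y : Fin (ga * gb) → SimpleGraph (Fin v)) (J : Fin (ga * gb))
    (F : (Fin n × Fin n × Bool → Bool) → Bool) (hF : F ∈ VB (Fin n × Fin n × Bool)) :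
    F ∘ (fun G => plc f h (Function.update y J G)) ∈ GB (Fin v) := by
  classical
  rcases hF with ⟨b, rfl⟩ | ⟨⟨c, p, s⟩, rfl⟩
  · exact Or.inl ⟨b, rfl⟩
  · have hupd : ∀ G : SimpleGraph (Fin v),
        (fun J' => Function.update y J G (finProdFinEquiv J')) =
        Function.update (fun J' => y (finProdFinEquiv J')) (finProdFinEquiv.symm J) G := by
      intro G
      funext J'
      by_cases hJ : J' = finProdFinEquiv.symm J
      · subst hJ
        rw [Equiv.apply_symm_apply, Function.update_self, Function.update_self]
      · rw [Function.update_of_ne hJ, Function.update_of_ne]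
        intro h1
        apply hJ
        rw [← h1, Equiv.symm_apply_apply]
    by_cases hc : ∃ c', f c' = c
    · obtain ⟨c', rfl⟩ := hc
      by_cases hp : ∃ p', h p' = p
      · obtain ⟨p', rfl⟩ := hp
        have hval : ∀ G, plc f h (Function.update y J G) (f c', h p', s) = true ↔
            inc (Function.update (fun J' => y (finProdFinEquiv J')) (finProdFinEquiv.symm J) G)
              c' p' s := by
          intro G
          simp only [plc, decide_eq_true_eq, hupd G]
          constructor
          · rintro (⟨c, hc, p, hp, hi⟩ | h1)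
            · rw [hf hc, hh hp] at hi
              exact hi
            · exact absurd ⟨c', rfl⟩ h1
          · intro hi
            exact Or.inl ⟨c', rfl, p', rfl, hi⟩
        rcases inc_base (fun J' => y (finProdFinEquiv J')) (finProdFinEquiv.symm J) c' p' s with
          ⟨b, hb⟩ | ⟨a, t, hat⟩
        · left
          refine ⟨decide b, ?_⟩
          funext G
          simp only [Function.comp]
          rw [Bool.eq_iff_iff, hval G, hb G, decide_eq_true_eq]
        · right
          refine ⟨a, t, ?_⟩
          funext G
          simp only [Function.comp]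
          rw [Bool.eq_iff_iff, hval G, hat G]
          simp [adjFn]
      · left
        refine ⟨false, ?_⟩
        funext G
        simp only [Function.comp, plc, decide_eq_false_iff_not]
        rintro (⟨c, hc, p', hp', hi⟩ | h1)
        · exact hp ⟨p', hp'⟩
        · exact h1 ⟨c', rfl⟩
    · left
      refine ⟨true, ?_⟩
      funext G
      simp only [Function.comp, plc, decide_eq_true_eq]
      exact Or.inr hc

/-- Two such CNFs differ only in the positive occurrences of the selectors in the clauses of the
groups. -/
theorem plc_diff (f : Cl ga gb k v → Fin n) (hf : Function.Injective f)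
    (h : Va ga gb k v → Fin n) (hh : Function.Injective h)
    (y y' : Fin (ga * gb) → SimpleGraph (Fin v)) (q : Fin n × Fin n × Bool)
    (hq : plc f h y q ≠ plc f h y' q) :
    (∃ I i j u w, f (.e I i j u w) = q.1) ∧ (∃ J, h (.b J) = q.2.1) ∧ q.2.2 = true := by
  classical
  obtain ⟨c, p, s⟩ := q
  have key : ∀ (c' : Cl ga gb k v) (p' : Va ga gb k v), (∀ y y' : Fin (ga * gb) → SimpleGraph (Fin v),
      inc (fun J => y (finProdFinEquiv J)) c' p' s ↔
      inc (fun J => y' (finProdFinEquiv J)) c' p' s) ∨
      ((∃ I i j u w, c' = .e I i j u w) ∧ (∃ J, p' = .b J) ∧ s = true) := by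
    intro c' p'
    cases c' <;> cases p' <;> first
      | exact Or.inl fun _ _ => Iff.rfl
      | (by_cases hs : s = true
         · exact Or.inr ⟨⟨_, _, _, _, _, rfl⟩, ⟨_, rfl⟩, hs⟩
         · exact Or.inl fun _ _ => by simp [inc, hs])
  by_cases hc : ∃ c', f c' = c
  · obtain ⟨c', rfl⟩ := hc
    by_cases hp : ∃ p', h p' = p
    · obtain ⟨p', rfl⟩ := hp
      rcases key c' p' with h1 | ⟨⟨I, i, j, u, w, rfl⟩, ⟨J, rfl⟩, hs⟩
      · exfalso
        apply hq
        have hval : ∀ y : Fin (ga * gb) → SimpleGraph (Fin v),
            plc f h y (f c', h p', s) = true ↔ inc (fun J => y (finProdFinEquiv J)) c' p' s := by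
          intro y
          simp only [plc, decide_eq_true_eq]
          constructor
          · rintro (⟨c, hc, p, hp, hi⟩ | h1)
            · rw [hf hc, hh hp] at hi
              exact hi
            · exact absurd ⟨c', rfl⟩ h1
          · intro hi
            exact Or.inl ⟨c', rfl, p', rfl, hi⟩
        rw [Bool.eq_iff_iff, hval, hval]
        exact h1 y y'
      · exact ⟨⟨I, i, j, u, w, rfl⟩, ⟨J, rfl⟩, hs⟩
    · exfalso
      apply hq
      have : ∀ y : Fin (ga * gb) → SimpleGraph (Fin v), plc f h y (f c', p, s) = false := by
        intro y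
        simp only [plc, decide_eq_false_iff_not]
        rintro (⟨c, hc, p', hp', hi⟩ | h1)
        · exact hp ⟨p', hp'⟩
        · exact h1 ⟨c', rfl⟩
      rw [this, this]
  · exfalso
    apply hq
    have : ∀ y : Fin (ga * gb) → SimpleGraph (Fin v), plc f h y (c, p, s) = true := by
      intro y
      simp only [plc, decide_eq_true_eq]
      exact Or.inr hc
    rw [this, this]

end Pool.Agent.H547R2.SatEmb
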