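import Pool.Agent.H547R2.Sat2

/-!
# Chains of unsatisfiable CNFs inside a rectangle of literal occurrences
-/

namespace Pool.Agent.H547R2.SatEmb

open Pool.Agent.H520R2 Pool.Agent.H520R2.NM

variable {ga gb k v n : ℕ}

/-- The clauses that are not in the groups. -/
abbrev OCl (gb k : ℕ) := Unit ⊕ Fin gb ⊕ Fin gb ⊕ Fin gb ⊕ Fin k

/-- The variables that are not selectors. -/
abbrev OVa (ga gb k v : ℕ) := Fin ga ⊕ Fin gb ⊕ (Fin k × Fin v)

theorem exists_f (A : Finset (Fin n)) (h1 : ga * (k * (k * (v * v))) ≤ A.card)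
    (h2 : 1 + (gb + (gb + (gb + k))) ≤ n - A.card) :
    ∃ f : Cl ga gb k v → Fin n, Function.Injective f ∧ ∀ I i j u w, f (.e I i j u w) ∈ A := by
  classical
  obtain ⟨φ⟩ : Nonempty ((Fin ga × Fin k × Fin k × Fin v × Fin v) ↪ {x // x ∈ A}) := by
    apply Function.Embedding.nonempty_of_card_le
    simpa using h1
  obtain ⟨ψ⟩ : Nonempty (OCl gb k ↪ {x // x ∉ A}) := by
    apply Function.Embedding.nonempty_of_card_le
    rw [Fintype.card_subtype_compl, Fintype.card_coe]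
    simpa using h2
  let f : Cl ga gb k v → Fin n := fun c => match c with
    | .e I i j u w => (φ (I, i, j, u, w)).1
    | .u => (ψ (.inl ())).1
    | .l0 J => (ψ (.inr (.inl J))).1
    | .l1 J => (ψ (.inr (.inr (.inl J)))).1
    | .l2 J => (ψ (.inr (.inr (.inr (.inl J))))).1
    | .s i => (ψ (.inr (.inr (.inr (.inr i))))).1
  refine ⟨f, ?_, fun I i j u w => (φ _).2⟩
  intro c c' h
  have hno : ∀ (p : Fin ga × Fin k × Fin k × Fin v × Fin v) (q : OCl gb k),
      (φ p).1 ≠ (ψ q).1 := by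
    intro p q h'
    exact (ψ q).2 (h' ▸ (φ p).2)
  have hφ : ∀ p p', (φ p).1 = (φ p').1 → p = p' := fun p p' h' => φ.injective (Subtype.ext h')
  have hψ : ∀ p p', (ψ p).1 = (ψ p').1 → p = p' := fun p p' h' => ψ.injective (Subtype.ext h')
  cases c <;> cases c' <;> simp only [f] at h <;> first
    | exact absurd h (hno _ _)
    | exact absurd h.symm (hno _ _)
    | (have h' := hφ _ _ h; simp only [Prod.mk.injEq] at h'; obtain ⟨rfl, rfl, rfl, rfl, rfl⟩ := h'; rfl)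
    | (have h' := hψ _ _ h; simp at h'; done)
    | (have h' := hψ _ _ h; simp at h'; subst h'; rfl)
    | rfl

theorem exists_h (B : Finset (Fin n)) (h1 : gb ≤ B.card)
    (h2 : ga + (gb + k * v) ≤ n - B.card) :
    ∃ h : Va ga gb k v → Fin n, Function.Injective h ∧ ∀ J, h (.b J) ∈ B := by
  classical
  obtain ⟨φ⟩ : Nonempty (Fin gb ↪ {x // x ∈ B}) := by
    apply Function.Embedding.nonempty_of_card_le
    simpa using h1
  obtain ⟨ψ⟩ : Nonempty (OVa ga gb k v ↪ {x // x ∉ B}) := by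
    apply Function.Embedding.nonempty_of_card_le
    rw [Fintype.card_subtype_compl, Fintype.card_coe]
    simpa using h2
  let f : Va ga gb k v → Fin n := fun c => match c with
    | .b J => (φ J).1
    | .a I => (ψ (.inl I)).1
    | .z J => (ψ (.inr (.inl J))).1
    | .y i u => (ψ (.inr (.inr (i, u)))).1
  refine ⟨f, ?_, fun J => (φ _).2⟩
  intro c c' h
  have hno : ∀ (p : Fin gb) (q : OVa ga gb k v), (φ p).1 ≠ (ψ q).1 := by
    intro p q h'
    exact (ψ q).2 (h' ▸ (φ p).2)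
  have hφ : ∀ p p', (φ p).1 = (φ p').1 → p = p' := fun p p' h' => φ.injective (Subtype.ext h')
  have hψ : ∀ p p', (ψ p).1 = (ψ p').1 → p = p' := fun p p' h' => ψ.injective (Subtype.ext h')
  cases c <;> cases c' <;> simp only [f] at h <;> first
    | exact absurd h (hno _ _)
    | exact absurd h.symm (hno _ _)
    | (have h' := hφ _ _ h; subst h'; rfl)
    | (have h' := hψ _ _ h; simp at h'; done)
    | (have h' := hψ _ _ h; simp at h'; subst h'; rfl)
    | (have h' := hψ _ _ h; simp at h'; obtain ⟨rfl, rfl⟩ := h'; rfl)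

/-- The parameters. -/
theorem params {n t : ℕ} (ht : 2 ≤ t) (hn : 1600 * t ^ 10 ≤ n) (A B : Finset (Fin n))
    (hA : 2 * A.card ≤ n) (hB : 8 * B.card ≤ n) :
    (∃ f : Cl (A.card / (40000 * t ^ 20)) B.card (t ^ 2) (200 * (t ^ 2) ^ 4) → Fin n,
      Function.Injective f ∧ ∀ I i j u w, f (.e I i j u w) ∈ A) ∧
    ∃ h : Va (A.card / (40000 * t ^ 20)) B.card (t ^ 2) (200 * (t ^ 2) ^ 4) → Fin n,
      Function.Injective h ∧ ∀ J, h (.b J) ∈ B := by
  obtain ⟨D, hD⟩ : ∃ D, D = t ^ 10 := ⟨_, rfl⟩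
  have hkv : t ^ 2 * (200 * (t ^ 2) ^ 4) = 200 * D := by rw [hD]; ring
  have hkkvv : t ^ 2 * (t ^ 2 * (200 * (t ^ 2) ^ 4 * (200 * (t ^ 2) ^ 4))) = 40000 * t ^ 20 := by
    ring
  have hD20 : D ≤ t ^ 20 := by
    rw [hD]; exact Nat.pow_le_pow_right (by omega) (by norm_num)
  have ht2 : t ^ 2 ≤ D := by rw [hD]; exact Nat.pow_le_pow_right (by omega) (by norm_num)
  have ht2' : 4 ≤ t ^ 2 := by nlinarith
  rw [← hD] at hn
  have hga : A.card / (40000 * t ^ 20) * (40000 * t ^ 20) ≤ A.card := Nat.div_mul_le_self _ _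
  have hga' : A.card / (40000 * t ^ 20) * 40000 ≤ A.card := by
    have h1 : 1 ≤ t ^ 20 := Nat.one_le_pow _ _ (by omega)
    calc A.card / (40000 * t ^ 20) * 40000 = A.card / (40000 * t ^ 20) * (40000 * 1) := by ring
      _ ≤ A.card / (40000 * t ^ 20) * (40000 * t ^ 20) :=
        Nat.mul_le_mul_left _ (Nat.mul_le_mul_left _ h1)
      _ ≤ _ := hga
  constructor
  · refine exists_f A ?_ ?_
    · rw [hkkvv]
      exact hga
    · omega
  · refine exists_h B le_rfl ?_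
    rw [hkv]
    omega

/-- **The chain theorem for satisfiability.** -/
theorem sat_chain {n t : ℕ} (ht : 2 ≤ t) (hn : 1600 * t ^ 10 ≤ n) (A B : Finset (Fin n))
    (hA : 2 * A.card ≤ n) (hB : 8 * B.card ≤ n) {l : ℕ}
    (C : Circuit (Fin n × Fin n × Bool) l) (out : Wire (Fin n × Fin n × Bool) l)
    (hC : ∀ x : Fin n × Fin n × Bool → Bool, out.eval x (C.vals x) = true ↔ SatN n x)
    (hsize : C.size + C.fanins.sum < 2 ^ t) :
    ∃ x : ℕ → Fin n × Fin n × Bool → Bool,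
      (∀ i < A.card / (40000 * t ^ 20) * B.card, x i ≤ x (i + 1)) ∧
      (∀ i < A.card / (40000 * t ^ 20) * B.card, C.probes (x i) ≠ C.probes (x (i + 1))) ∧
      (∀ i ≤ A.card / (40000 * t ^ 20) * B.card, ¬ SatN n (x i)) ∧
      ∀ i j q, x i q ≠ x j q → q.1 ∈ A ∧ q.2.1 ∈ B ∧ q.2.2 = true := by
  obtain ⟨⟨f, hf, hfA⟩, ⟨h, hh, hhB⟩⟩ := params ht hn A B hA hB
  have h4t : 4 ≤ t ^ 2 := by nlinarith
  obtain ⟨x, hx1, hx2, hx3, hx4⟩ := chain_abs' h4t le_rfl (plc f h) (plc_mono f h)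
    (plc_base f hf h hh) C out (fun y => by rw [hC]; exact plc_sat (by omega) f hf h hh y)
    (by rw [Nat.sqrt_eq']; exact hsize)
  refine ⟨x, hx1, hx2, fun i hi hs => ?_, fun i j q hq => ?_⟩
  · rw [← hC, hx3 i hi] at hs
    exact absurd hs (by simp)
  · obtain ⟨y, hy⟩ := hx4 i
    obtain ⟨y', hy'⟩ := hx4 j
    rw [hy, hy'] at hq
    obtain ⟨⟨I, i', j', u, w, h1⟩, ⟨J, h2⟩, h3⟩ := plc_diff f hf h hh y y' q hq
    exact ⟨h1 ▸ hfA _ _ _ _ _, h2 ▸ hhB _, h3⟩

end Pool.Agent.H547R2.SatEmb
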