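import Pool.Agent.H547R2.Sat3
import Pool.Agent.H611R2.CoNondet

/-!
# Nondeterministic circuits for tautologies
-/

namespace Pool.Agent.H547R2.SatEmb

open Pool.Agent.H520R2 Pool.Agent.H520R2.NM Pool.Agent.H611R2

variable {ι : Type}

/-- The dual function. -/
def dual (f : (ι → Bool) → Bool) (x : ι → Bool) : Bool := !f fun i => !x i

theorem dual_mem_VB {f : (ι → Bool) → Bool} (hf : f ∈ VB ι) : dual f ∈ VB ι := by
  rcases hf with ⟨b, rfl⟩ | ⟨i, rfl⟩
  · exact Or.inl ⟨!b, rfl⟩
  · right
    refine ⟨i, ?_⟩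
    funext x
    simp [dual]

theorem mprog_dual {L : List ((ι → Bool) → Bool)} (h : MProg (VB ι) L) :
    MProg (VB ι) (L.map dual) := by
  have key : ∀ {L : List ((ι → Bool) → Bool)} {f : (ι → Bool) → Bool}, (f ∈ VB ι ∨ f ∈ L) →
      (dual f ∈ VB ι ∨ dual f ∈ L.map dual) := by
    intro L f hf
    rcases hf with hf | hf
    · exact Or.inl (dual_mem_VB hf)
    · exact Or.inr (List.mem_map_of_mem hf)
  induction h with
  | nil => exact MProg.nil
  | @and L f g _ hf hg ih =>
    have h1 := MProg.or ih (key hf) (key hg)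
    have h2 : dual (fun x => f x && g x) = fun x => dual f x || dual g x := by
      funext x
      simp [dual]
    rw [List.map_cons, h2]
    exact h1
  | @or L f g _ hf hg ih =>
    have h1 := MProg.and ih (key hf) (key hg)
    have h2 : dual (fun x => f x || g x) = fun x => dual f x && dual g x := by
      funext x
      simp [dual]
    rw [List.map_cons, h2]
    exact h1

theorem mcomp_dual {s : ℕ} {f : (ι → Bool) → Bool} (h : MComp (VB ι) s f) :
    MComp (VB ι) s (dual f) := by
  obtain ⟨L, hL, hs, hf⟩ := h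
  refine ⟨L.map dual, mprog_dual hL, by simpa using hs, ?_⟩
  rcases hf with hf | hf
  · exact Or.inl (dual_mem_VB hf)
  · exact Or.inr (List.mem_map_of_mem hf)

/-- If the bits entering the arbitrary gates depend only on the guess bits and on the input bits
outside `R`, then for fixed guess bits and fixed input bits outside `R` the circuit computes a
function of small monotone complexity. -/
theorem mcomp_local {g l : ℕ} (R : ι → Prop) [DecidablePred R] (C : Circuit (ι ⊕ Fin g) l)
    (out : Wire (ι ⊕ Fin g) l)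
    (hC : ∀ (x x' : ι → Bool) (z : Fin g → Bool), (∀ i, x i ≠ x' i → R i) →
      C.probes (Sum.elim x z) = C.probes (Sum.elim x' z)) (x0 : ι → Bool) (z : Fin g → Bool) :
    MComp (VB ι) C.size (fun x => out.eval (Sum.elim (fun i => if R i then x i else x0 i) z)
      (C.vals (Sum.elim (fun i => if R i then x i else x0 i) z))) := by
  obtain ⟨L, ρ, ps, hL, hlen, hρ, _, _, h1, h2⟩ := C.frozen (Sum.elim x0 z)
  have hval : ∀ x : ι → Bool, ∀ j,
      ρ j (Sum.elim (fun i => if R i then x i else x0 i) z) =
        C.vals (Sum.elim (fun i => if R i then x i else x0 i) z) j := by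
    intro x
    refine (h1 _ (h2 _ (hC _ _ z ?_))).2
    intro i hi
    by_contra hR
    exact hi (by simp [hR])
  have hcomp : MComp (VB (ι ⊕ Fin g)) C.size (out.pseudo ρ) :=
    ⟨L, hL, hlen, Wire.pseudo_av hρ out⟩
  have h3 := hcomp.comp (B' := VB ι)
    (fun x : ι → Bool => (Sum.elim (fun i => if R i then x i else x0 i) z : ι ⊕ Fin g → Bool))
    (by
      rintro f (⟨b, rfl⟩ | ⟨i, rfl⟩)
      · exact Or.inl ⟨b, rfl⟩
      · cases i with
        | inl i =>
          by_cases hR : R i
          · right
            refine ⟨i, ?_⟩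
            funext x
            simp [hR]
          · left
            refine ⟨x0 i, ?_⟩
            funext x
            simp [hR]
        | inr j => exact Or.inl ⟨z j, rfl⟩)
  have h4 : (out.pseudo ρ) ∘ (fun x : ι → Bool =>
      (Sum.elim (fun i => if R i then x i else x0 i) z : ι ⊕ Fin g → Bool)) =
      fun x => out.eval (Sum.elim (fun i => if R i then x i else x0 i) z)
        (C.vals (Sum.elim (fun i => if R i then x i else x0 i) z)) := by
    funext x
    exact Wire.pseudo_eq (hval x) out
  rw [h4] at h3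
  exact h3

/-- A DNF with `n` terms in `n` variables given by its absent literals: `u (c, p, b)` says that the
literal which is true when `p` has the value `b` does not occur in the term `c`. It is a tautology
if for all values of the variables some term contains no false literal. -/
def TautN (n : ℕ) (u : Fin n × Fin n × Bool → Bool) : Prop :=
  ∀ τ : Fin n → Bool, ∃ c, ∀ p, u (c, p, !τ p) = true

theorem not_taut_iff {n : ℕ} (x : Fin n × Fin n × Bool → Bool) :
    ¬ TautN n (fun q => !x q) ↔ SatN n x := by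
  unfold TautN SatN
  push Not
  constructor
  · rintro ⟨τ, h⟩
    refine ⟨fun p => !τ p, fun c => ?_⟩
    obtain ⟨p, hp⟩ := h c
    exact ⟨p, by simpa using hp⟩
  · rintro ⟨τ, h⟩
    refine ⟨fun p => !τ p, fun c => ?_⟩
    obtain ⟨p, hp⟩ := h c
    exact ⟨p, by simpa using hp⟩

/-- **Guess bits for tautologies.** -/
theorem taut_guess {n t g l : ℕ} (ht : 2 ≤ t) (hn : 1600 * t ^ 10 ≤ n) (A B : Finset (Fin n))
    (hA : 2 * A.card ≤ n) (hB : 8 * B.card ≤ n)
    (C : Circuit ((Fin n × Fin n × Bool) ⊕ Fin g) l)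
    (out : Wire ((Fin n × Fin n × Bool) ⊕ Fin g) l)
    (hC : ∀ (u u' : Fin n × Fin n × Bool → Bool) (z : Fin g → Bool),
      (∀ q, u q ≠ u' q → q.1 ∈ A ∧ q.2.1 ∈ B ∧ q.2.2 = true) →
      C.probes (Sum.elim u z) = C.probes (Sum.elim u' z))
    (hF : ∀ u, TautN n u ↔ ∃ z : Fin g → Bool,
      out.eval (Sum.elim u z) (C.vals (Sum.elim u z)) = true)
    (hsize : C.size < 2 ^ t) : A.card / (40000 * t ^ 20) * B.card / 3 ≤ g := by
  classical
  obtain ⟨⟨f, hf, hfA⟩, ⟨h, hh, hhB⟩⟩ := params ht hn A B hA hB
  have h4t : 4 ≤ t ^ 2 := by nlinarith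
  let R : Fin n × Fin n × Bool → Prop := fun q => q.1 ∈ A ∧ q.2.1 ∈ B ∧ q.2.2 = true
  let x0 : Fin n × Fin n × Bool → Bool := plc (k := t ^ 2) f h (fun _ => ⊥)
  let F : (Fin g → Bool) → (Fin n × Fin n × Bool → Bool) → Bool := fun z =>
    dual (fun u => out.eval (Sum.elim (fun i => if R i then u i else !x0 i) z)
      (C.vals (Sum.elim (fun i => if R i then u i else !x0 i) z)))
  have hmix : ∀ y : Fin (A.card / (40000 * t ^ 20) * B.card) →
      SimpleGraph (Fin (200 * (t ^ 2) ^ 4)),
      (fun i => if R i then (!plc (k := t ^ 2) f h y i) else !x0 i) =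
        fun i => !plc (k := t ^ 2) f h y i := by
    intro y
    funext i
    by_cases hR : R i
    · rw [if_pos hR]
    · rw [if_neg hR]
      by_contra hne
      apply hR
      obtain ⟨⟨I, i', j', u, w, h1⟩, ⟨J, h2⟩, h3⟩ := plc_diff f hf h hh y (fun _ => ⊥) i
        (fun h' => hne (by rw [h']))
      exact ⟨h1 ▸ hfA _ _ _ _ _, h2 ▸ hhB _, h3⟩
  have h5 := cover_lower (W := Fin (200 * (t ^ 2) ^ 4)) (k := t ^ 2) (s := C.size)
    (by rw [Fintype.card_fin]) h4t (by rw [Nat.sqrt_eq']; exact hsize) (plc f h) (plc_mono f h)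
    (plc_base f hf h hh) F (fun z => mcomp_dual (mcomp_local R C out hC (fun q => !x0 q) z))
    (fun y => by
      rw [← plc_sat (by omega) f hf h hh y, ← not_taut_iff, hF, not_exists]
      refine forall_congr' fun z => ?_
      simp only [F, dual, Bool.not_eq_true', hmix y, Bool.not_eq_true])
  have h6 := two_pow_le h5
  rw [Fintype.card_fun, Fintype.card_fin, Fintype.card_bool] at h6
  exact (Nat.pow_le_pow_iff_right (by norm_num)).mp h6

end Pool.Agent.H547R2.SatEmb
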